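import Mathlib

/-!
# The square root of `1 + X` in a Banach algebra, as a power series
-/

namespace Pool.Agent.Helper80.TW

open Finset Filter Topology
open scoped Nat ContDiff

/-- Binomial coefficients of exponent `1/2`. -/
noncomputable def bc (k : ℕ) : ℝ := Ring.choose (1 / 2 : ℝ) k

theorem bc_zero : bc 0 = 1 := by simp [bc]

theorem bc_succ (k : ℕ) : bc (k + 1) * (k + 1) = bc k * (1 / 2 - k) := by
  have h1 : bc (k + 1) = ((k + 1).factorial : ℝ)⁻¹ • (descPochhammer ℤ (k + 1)).smeval (1 / 2 : ℝ) :=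
    Ring.choose_eq_smul
  have h2 : bc k = ((k).factorial : ℝ)⁻¹ • (descPochhammer ℤ k).smeval (1 / 2 : ℝ) :=
    Ring.choose_eq_smul
  have h3 : (descPochhammer ℤ (k + 1)).smeval (1 / 2 : ℝ) =
      (descPochhammer ℤ k).smeval (1 / 2 : ℝ) * (1 / 2 - k) := by
    rw [descPochhammer_succ_right, Polynomial.smeval_mul, Polynomial.smeval_sub,
      Polynomial.smeval_X, pow_one, Polynomial.smeval_natCast]
    simp
  rw [h1, h2, h3, Nat.factorial_succ]
  have : ((k.factorial : ℕ) : ℝ) ≠ 0 := by positivity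
  have : ((k : ℝ) + 1) ≠ 0 := by positivity
  push_cast
  simp only [smul_eq_mul]
  field_simp

theorem abs_bc_le (k : ℕ) : |bc k| ≤ 1 := by
  induction k with
  | zero => simp [bc_zero]
  | succ k ih =>
    have h := bc_succ k
    have hk : (0 : ℝ) < (k : ℝ) + 1 := by positivity
    have h1 : |bc (k + 1)| * (k + 1) = |bc k| * |1 / 2 - (k : ℝ)| := by
      rw [← abs_mul, ← h, abs_mul, abs_of_pos hk]
    have h2 : |1 / 2 - (k : ℝ)| ≤ k + 1 := by
      rw [abs_le]; constructor <;> [skip; skip]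
      · have : (0 : ℝ) ≤ k := by positivity
        linarith
      · have : (0 : ℝ) ≤ k := by positivity
        linarith
    have h3 : |bc (k + 1)| * (k + 1) ≤ 1 * (k + 1) := by
      rw [h1]
      exact mul_le_mul ih h2 (abs_nonneg _) zero_le_one
    exact le_of_mul_le_mul_right h3 hk

theorem bc_conv (k : ℕ) :
    ∑ ij ∈ antidiagonal k, bc ij.1 * bc ij.2 = if k ≤ 1 then 1 else 0 := by
  have h := Ring.add_choose_eq (R := ℝ) (r := 1 / 2) (s := 1 / 2) k (Commute.all _ _)
  have h1 : (1 / 2 + 1 / 2 : ℝ) = ((1 : ℕ) : ℝ) := by norm_num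
  rw [h1, Ring.choose_natCast] at h
  unfold bc
  rw [← h]
  rcases k with _ | _ | k
  · simp
  · simp
  · simp

section Alg

variable {A : Type*} [NormedRing A] [NormedAlgebra ℂ A] [CompleteSpace A]

/-- The series of `(1 + X)^(1/2)`. -/
noncomputable def sq (X : A) : A := ∑' k, (bc k : ℂ) • X ^ k

omit [CompleteSpace A] in
theorem summable_norm_sq {X : A} (h : ‖X‖ < 1) : Summable (fun k => ‖(bc k : ℂ) • X ^ k‖) := by
  have h0 : Summable (fun k : ℕ => ‖X ^ k‖) := summable_norm_geometric_of_norm_lt_one h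
  refine Summable.of_nonneg_of_le (fun _ => norm_nonneg _) (fun k => ?_) h0
  rw [norm_smul, Complex.norm_real, Real.norm_eq_abs]
  exact mul_le_of_le_one_left (norm_nonneg _) (abs_bc_le k)

theorem summable_sq {X : A} (h : ‖X‖ < 1) : Summable (fun k => (bc k : ℂ) • X ^ k) :=
  (summable_norm_sq h).of_norm

theorem sq_mul_self {X : A} (h : ‖X‖ < 1) : sq X * sq X = 1 + X := by
  unfold sq
  rw [tsum_mul_tsum_eq_tsum_sum_antidiagonal_of_summable_norm (summable_norm_sq h)
    (summable_norm_sq h)]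
  have hk : ∀ k : ℕ, ∑ kl ∈ antidiagonal k, (bc kl.1 : ℂ) • X ^ kl.1 * (bc kl.2 : ℂ) • X ^ kl.2 =
      (if k ≤ 1 then (1 : ℂ) else 0) • X ^ k := by
    intro k
    have hc : (∑ ij ∈ antidiagonal k, (bc ij.1 : ℂ) * (bc ij.2 : ℂ)) =
        if k ≤ 1 then (1 : ℂ) else 0 := by
      have := bc_conv k
      have h2 : ((∑ ij ∈ antidiagonal k, bc ij.1 * bc ij.2 : ℝ) : ℂ) =
          ((if k ≤ 1 then 1 else 0 : ℝ) : ℂ) := by rw [this]
      push_cast at h2
      rw [h2]
      split_ifs <;> simp
    rw [← hc, Finset.sum_smul]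
    refine Finset.sum_congr rfl (fun kl hkl => ?_)
    rw [HasAntidiagonal.mem_antidiagonal] at hkl
    rw [smul_mul_smul_comm, ← pow_add, hkl]
  simp_rw [hk]
  rw [tsum_eq_sum (s := Finset.range 2)]
  · simp [Finset.sum_range_succ]
  · intro b hb
    have : ¬ b ≤ 1 := by
      simp only [Finset.mem_range, not_lt] at hb
      omega
    simp [this]

/-- Transformation rule for continuous additive maps which commute with real scalars. -/
theorem map_sq {B : Type*} [NormedRing B] [NormedAlgebra ℂ B] [CompleteSpace B]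
    (Φ : A →+ B) (hc : Continuous Φ) {X : A} {Y : B} (h : ‖X‖ < 1)
    (hΦ : ∀ k : ℕ, ∀ r : ℝ, Φ ((r : ℂ) • X ^ k) = (r : ℂ) • Y ^ k) :
    Φ (sq X) = sq Y := by
  unfold sq
  rw [(summable_sq h).map_tsum Φ hc]
  exact tsum_congr (fun k => hΦ k (bc k))

theorem mul_sq_comm {T U : A} (h1 : ‖U * T‖ < 1) (h2 : ‖T * U‖ < 1) :
    T * sq (U * T) = sq (T * U) * T := by
  unfold sq
  rw [← (summable_sq h1).tsum_mul_left, ← (summable_sq h2).tsum_mul_right]
  refine tsum_congr (fun k => ?_)
  have : T * (U * T) ^ k = (T * U) ^ k * T := by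
    induction k with
    | zero => simp
    | succ k ih => rw [pow_succ, ← mul_assoc, ih, pow_succ]; simp only [mul_assoc]
  rw [mul_smul_comm, smul_mul_assoc, this]

theorem contDiffOn_sq : ContDiffOn ℂ ∞ (sq : A → A) (Metric.ball 0 1) := by
  have hfun : (sq : A → A) =
      (FormalMultilinearSeries.ofScalars A (fun k => (bc k : ℂ))).sum := by
    funext X
    rw [FormalMultilinearSeries.sum]
    unfold sq
    refine tsum_congr (fun k => ?_)
    rw [FormalMultilinearSeries.ofScalars_apply_eq]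
  have hrad : (1 : ENNReal) ≤
      (FormalMultilinearSeries.ofScalars A (fun k => (bc k : ℂ))).radius := by
    refine ENNReal.le_of_forall_nnreal_lt (fun r hr => ?_)
    have hr1 : (r : ℝ) ≤ 1 := by
      have : r < 1 := by exact_mod_cast hr
      exact_mod_cast this.le
    refine (FormalMultilinearSeries.ofScalars A (fun k => (bc k : ℂ))).le_radius_of_bound
      (‖FormalMultilinearSeries.ofScalars A (fun k => (bc k : ℂ)) 0‖ + 1) (fun n => ?_)
    rcases Nat.eq_zero_or_pos n with hn | hn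
    · subst hn; simp
    · have h1 := FormalMultilinearSeries.ofScalars_norm_le (E := A)
        (c := fun k => (bc k : ℂ)) n hn
      have h2 : ‖(bc n : ℂ)‖ ≤ 1 := by
        rw [Complex.norm_real, Real.norm_eq_abs]; exact abs_bc_le n
      have h3 : (r : ℝ) ^ n ≤ 1 := pow_le_one₀ r.2 hr1
      calc ‖FormalMultilinearSeries.ofScalars A (fun k => (bc k : ℂ)) n‖ * (r : ℝ) ^ n ≤ 1 * 1 :=
            mul_le_mul (h1.trans h2) h3 (by positivity) zero_le_one
        _ ≤ _ := by
            have := norm_nonneg (FormalMultilinearSeries.ofScalars A (fun k => (bc k : ℂ)) 0)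
            linarith
  have hpos : 0 < (FormalMultilinearSeries.ofScalars A (fun k => (bc k : ℂ))).radius :=
    lt_of_lt_of_le (by norm_num) hrad
  have hF := (FormalMultilinearSeries.ofScalars A (fun k => (bc k : ℂ))).hasFPowerSeriesOnBall hpos
  rw [hfun]
  have := hF.analyticOnNhd.contDiffOn (n := ∞) (Metric.isOpen_eball.uniqueDiffOn)
  refine this.mono ?_
  intro x hx
  rw [Metric.mem_ball, dist_zero_right] at hx
  rw [Metric.mem_eball, edist_zero_right]
  refine lt_of_lt_of_le ?_ hrad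
  rw [← ofReal_norm]
  exact_mod_cast ENNReal.ofReal_lt_one.mpr hx

end Alg

end Pool.Agent.Helper80.TW
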