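import Pool.Agent.Helper80.TW.Hyp

/-!
# Boosts, and the elements of `W` over a given point
-/

namespace Pool.Agent.Helper80.TW

open Matrix

variable {n : ℕ}

/-- The reflection in the hyperplane orthogonal to `w`. -/
noncomputable def Rf (w : Fin (n + 1) ⊕ Fin (n + 1) → ℝ) : Mat n :=
  1 - (2 / bil n w w) • Matrix.vecMulVec w (Gm n *ᵥ w)

theorem Rf_mulVec (w v : Fin (n + 1) ⊕ Fin (n + 1) → ℝ) :
    Rf w *ᵥ v = v - (2 / bil n w w * bil n w v) • w := by
  have h1 : (Gm n *ᵥ w) ⬝ᵥ v = bil n w v := by rw [bil_comm, dotProduct_comm]; rfl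
  unfold Rf
  rw [Matrix.sub_mulVec, Matrix.one_mulVec, Matrix.smul_mulVec, Matrix.vecMulVec_mulVec, h1]
  ext i
  simp [mul_comm, mul_left_comm]

theorem Rf_orth {w : Fin (n + 1) ⊕ Fin (n + 1) → ℝ} (hw : bil n w w ≠ 0) :
    (Rf w)ᵀ * Gm n * Rf w = Gm n := by
  have h2 : w ᵥ* Gm n = Gm n *ᵥ w := by rw [← Matrix.mulVec_transpose, Gm_tr]
  have h3 : w ⬝ᵥ (Gm n *ᵥ w) = bil n w w := rfl
  unfold Rf
  rw [transpose_sub, transpose_one, transpose_smul, Matrix.transpose_vecMulVec, sub_mul, one_mul,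
    smul_mul_assoc, Matrix.vecMulVec_mul, h2, sub_mul, mul_sub, mul_sub, mul_one, mul_one,
    mul_smul_comm, Matrix.mul_vecMulVec, smul_mul_assoc, mul_smul_comm,
    Matrix.vecMulVec_mul_vecMulVec, dotProduct_comm, h3]
  ext i j
  simp only [Matrix.sub_apply, Matrix.smul_apply, Matrix.vecMulVec_apply, smul_eq_mul,
    Pi.smul_apply]
  field_simp
  ring

theorem Rf_sq {w : Fin (n + 1) ⊕ Fin (n + 1) → ℝ} (hw : bil n w w ≠ 0) : Rf w * Rf w = 1 := by
  have h3 : (Gm n *ᵥ w) ⬝ᵥ w = bil n w w := by rw [dotProduct_comm]; rfl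
  unfold Rf
  rw [sub_mul, one_mul, mul_sub, mul_one, smul_mul_assoc, mul_smul_comm,
    Matrix.vecMulVec_mul_vecMulVec, h3]
  ext i j
  simp only [Matrix.sub_apply, Matrix.smul_apply, Matrix.vecMulVec_apply, smul_eq_mul,
    Pi.smul_apply]
  field_simp
  ring

theorem Rf_double (w : Fin (n + 1) ⊕ Fin (n + 1) → ℝ) (hw : bil n w w ≠ 0) : Rf (w + w) = Rf w := by
  have h1 : bil n (w + w) (w + w) = 4 * bil n w w := by
    unfold bil
    rw [Matrix.mulVec_add, add_dotProduct, dotProduct_add]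
    ring
  unfold Rf
  rw [h1, Matrix.mulVec_add]
  ext i j
  simp only [Matrix.sub_apply, Matrix.smul_apply, Matrix.vecMulVec_apply, smul_eq_mul,
    Pi.add_apply]
  field_simp
  ring

/-- The boost from `f` to `x`. -/
noncomputable def Bo (x : Fin (n + 1) ⊕ Fin (n + 1) → ℝ) : Mat n :=
  Rf (Pi.single (iF n) 1 + x) * Rf (Pi.single (iF n) 1)

theorem bil_ff : bil n (Pi.single (iF n) 1) (Pi.single (iF n) 1) = -1 := single_F_mem.2.1

theorem bil_w {x : Fin (n + 1) ⊕ Fin (n + 1) → ℝ} (hx : x ∈ Hyp n) :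
    bil n (Pi.single (iF n) 1 + x) (Pi.single (iF n) 1 + x) = -2 - 2 * x (iF n) := by
  have h1 : bil n (Pi.single (iF n) 1 + x) (Pi.single (iF n) 1 + x) =
      bil n (Pi.single (iF n) 1) (Pi.single (iF n) 1) + bil n (Pi.single (iF n) 1) x +
      bil n x (Pi.single (iF n) 1) + bil n x x := by
    unfold bil
    rw [Matrix.mulVec_add, add_dotProduct, dotProduct_add, dotProduct_add]
    ring
  rw [h1, bil_ff, bil_comm x, bil_single_F, hx.2.1]
  ring

theorem bil_w_ne {x : Fin (n + 1) ⊕ Fin (n + 1) → ℝ} (hx : x ∈ Hyp n) :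
    bil n (Pi.single (iF n) 1 + x) (Pi.single (iF n) 1 + x) ≠ 0 := by
  rw [bil_w hx]
  have := hx.2.2
  linarith

theorem Bo_f {x : Fin (n + 1) ⊕ Fin (n + 1) → ℝ} (hx : x ∈ Hyp n) :
    Bo x *ᵥ Pi.single (iF n) 1 = x := by
  unfold Bo
  rw [← Matrix.mulVec_mulVec, Rf_mulVec (Pi.single (iF n) 1), bil_ff]
  have h1 : Pi.single (iF n) (1 : ℝ) - (2 / (-1) * (-1 : ℝ)) • (Pi.single (iF n) (1 : ℝ)) =
      -(Pi.single (iF n) (1 : ℝ) : Fin (n + 1) ⊕ Fin (n + 1) → ℝ) := by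
    ext i; simp; ring
  have h2 : bil n (Pi.single (iF n) 1 + x) (-Pi.single (iF n) 1) = 1 + x (iF n) := by
    have : bil n (Pi.single (iF n) 1 + x) (-Pi.single (iF n) 1) =
        -(bil n (Pi.single (iF n) 1) (Pi.single (iF n) 1) + bil n x (Pi.single (iF n) 1)) := by
      unfold bil
      rw [Matrix.mulVec_neg, dotProduct_neg, add_dotProduct]
    rw [this, bil_ff, bil_comm x, bil_single_F]
    ring
  rw [h1, Rf_mulVec, h2, bil_w hx]
  have h3 : (2 / (-2 - 2 * x (iF n)) * (1 + x (iF n))) = -1 := by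
    have := hx.2.2
    have h4 : (-2 - 2 * x (iF n)) ≠ 0 := by linarith
    rw [div_mul_eq_mul_div, div_eq_iff h4]
    ring
  rw [h3]
  ext i; simp

theorem Rf_e {w : Fin (n + 1) ⊕ Fin (n + 1) → ℝ} (hw : w (ie n) = 0) :
    Rf w *ᵥ Pi.single (ie n) 1 = Pi.single (ie n) 1 := by
  rw [Rf_mulVec, bil_comm w (Pi.single (ie n) 1), bil_single_e, hw]
  simp

theorem Bo_Iso {x : Fin (n + 1) ⊕ Fin (n + 1) → ℝ} (hx : x ∈ Hyp n) : Bo x ∈ Iso n := by
  refine ⟨?_, ?_, ?_⟩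
  · change (Bo x)ᵀ * Gm n * Bo x = Gm n
    unfold Bo
    rw [transpose_mul]
    have h1 := Rf_orth (bil_w_ne hx)
    have h2 := Rf_orth (n := n) (w := Pi.single (iF n) 1) (by rw [bil_ff]; norm_num)
    calc (Rf (Pi.single (iF n) 1))ᵀ * (Rf (Pi.single (iF n) 1 + x))ᵀ * Gm n *
          (Rf (Pi.single (iF n) 1 + x) * Rf (Pi.single (iF n) 1))
        = (Rf (Pi.single (iF n) 1))ᵀ * ((Rf (Pi.single (iF n) 1 + x))ᵀ * Gm n *
          Rf (Pi.single (iF n) 1 + x)) * Rf (Pi.single (iF n) 1) := by simp only [mul_assoc]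
      _ = Gm n := by rw [h1, h2]
  · unfold Bo
    rw [← Matrix.mulVec_mulVec, Rf_e (by rw [Pi.single_eq_of_ne e_ne_F]), Rf_e]
    rw [Pi.add_apply, hx.1, Pi.single_eq_of_ne e_ne_F, add_zero]
  · have h1 := congrFun (Bo_f hx) (iF n)
    rw [Matrix.mulVec_single_one, Matrix.col_apply] at h1
    rw [h1]; exact hx.2.2

theorem Bo_base : Bo (Pi.single (iF n) 1) = (1 : Mat n) := by
  unfold Bo
  rw [Rf_double _ (by rw [bil_ff]; norm_num), Rf_sq (by rw [bil_ff]; norm_num)]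

/-- The path from `f` to `x`. -/
noncomputable def pth (x : Fin (n + 1) ⊕ Fin (n + 1) → ℝ) (t : ℝ) : Fin (n + 1) ⊕ Fin (n + 1) → ℝ :=
  fun i => if i = iF n then Real.sqrt (1 + t ^ 2 * (x (iF n) ^ 2 - 1)) else t * x i

theorem one_le_F {x : Fin (n + 1) ⊕ Fin (n + 1) → ℝ} (hx : x ∈ Hyp n) : 1 ≤ x (iF n) := by
  have := bil_le single_F_mem hx
  rw [bil_single_F] at this
  linarith

theorem pth_mem {x : Fin (n + 1) ⊕ Fin (n + 1) → ℝ} (hx : x ∈ Hyp n) (t : ℝ) :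
    pth x t ∈ Hyp n := by
  have h1 := one_le_F hx
  have h2 : 0 ≤ t ^ 2 * (x (iF n) ^ 2 - 1) := mul_nonneg (sq_nonneg t) (by nlinarith)
  have hF : pth x t (iF n) = Real.sqrt (1 + t ^ 2 * (x (iF n) ^ 2 - 1)) := by
    unfold pth; rw [if_pos rfl]
  refine ⟨?_, ?_, ?_⟩
  · unfold pth
    rw [if_neg e_ne_F, hx.1, mul_zero]
  · have h3 := hx.2.1
    rw [bil_eq, hx.1] at h3
    have h4 : ∀ i : Fin n ⊕ Fin n, pth x t (cs i) * pth x t (cs i) =
        t ^ 2 * (x (cs i) * x (cs i)) := by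
      intro i
      unfold pth
      rw [if_neg (cs_ne_F i)]; ring
    have h5 : pth x t (ie n) = 0 := by unfold pth; rw [if_neg e_ne_F, hx.1, mul_zero]
    rw [bil_eq, h5, hF, Real.mul_self_sqrt (by linarith), Finset.sum_congr rfl (fun i _ => h4 i),
      ← Finset.mul_sum]
    linear_combination t ^ 2 * h3
  · rw [hF]
    exact Real.sqrt_pos.2 (by linarith)

theorem pth_zero (x : Fin (n + 1) ⊕ Fin (n + 1) → ℝ) : pth x 0 = Pi.single (iF n) 1 := by
  ext i
  unfold pth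
  split_ifs with h
  · subst h; simp
  · rw [Pi.single_eq_of_ne h]; simp

theorem pth_one {x : Fin (n + 1) ⊕ Fin (n + 1) → ℝ} (hx : x ∈ Hyp n) : pth x 1 = x := by
  ext i
  unfold pth
  split_ifs with h
  · subst h
    have : (1 : ℝ) + 1 ^ 2 * (x (iF n) ^ 2 - 1) = x (iF n) ^ 2 := by ring
    rw [this, Real.sqrt_sq hx.2.2.le]
  · simp

theorem pth_cont (x : Fin (n + 1) ⊕ Fin (n + 1) → ℝ) : Continuous (pth x) := by
  refine continuous_pi (fun i => ?_)
  unfold pth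
  split_ifs
  · fun_prop
  · fun_prop

theorem Bo_cont {x : Fin (n + 1) ⊕ Fin (n + 1) → ℝ} (hx : x ∈ Hyp n) :
    Continuous (fun t => Bo (pth x t)) := by
  have h1 : Continuous (fun t => Pi.single (iF n) (1 : ℝ) + pth x t) :=
    continuous_const.add (pth_cont x)
  have h2 : Continuous (fun t => bil n (Pi.single (iF n) 1 + pth x t)
      (Pi.single (iF n) 1 + pth x t)) := by
    unfold bil
    exact h1.dotProduct (continuous_const.matrix_mulVec h1)
  unfold Bo Rf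
  refine Continuous.matrix_mul ?_ continuous_const
  have h3 : Continuous (fun t => 2 / bil n (Pi.single (iF n) 1 + pth x t)
      (Pi.single (iF n) 1 + pth x t)) :=
    continuous_const.div h2 (fun t => bil_w_ne (pth_mem hx t))
  have h4 : Continuous (fun t => vecMulVec (Pi.single (iF n) (1 : ℝ) + pth x t)
      (Gm n *ᵥ (Pi.single (iF n) 1 + pth x t))) :=
    h1.matrix_vecMulVec (continuous_const.matrix_mulVec h1)
  exact continuous_const.sub (h3.smul h4)

theorem mem_of_path {X : Type*} [TopologicalSpace X] [PreconnectedSpace X] {W : Set (Mat n)}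
    (hW : IsClopen {J : Z n | (J : Mat n) ∈ W}) {φ : X → Mat n} (hc : Continuous φ)
    (hZ : ∀ t, φ t ∈ Z n) {t₀ : X} (h0 : φ t₀ ∈ W) (t : X) : φ t ∈ W := by
  have h1 : Continuous (fun t => (⟨φ t, hZ t⟩ : Z n)) := hc.subtype_mk hZ
  have h2 := (hW.preimage h1).eq_univ ⟨t₀, h0⟩
  have h3 : t ∈ (fun t => (⟨φ t, hZ t⟩ : Z n)) ⁻¹' {J : Z n | (J : Mat n) ∈ W} := by
    rw [h2]; trivial
  exact h3

theorem J0_mem : J0 n ∈ Z n := by
  refine ⟨J0_sq, J0_orth, ?_⟩
  simp [J0, iF, ie]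

theorem Bo_mem {W : Set (Mat n)} (hW : IsClopen {J : Z n | (J : Mat n) ∈ W}) (h0 : J0 n ∈ W)
    {x : Fin (n + 1) ⊕ Fin (n + 1) → ℝ} (hx : x ∈ Hyp n) : Bo x * J0 n * gi (Bo x) ∈ W := by
  have h1 := mem_of_path (X := ℝ) hW (φ := fun t => Bo (pth x t) * J0 n * gi (Bo (pth x t)))
    (by
      unfold gi
      exact ((Bo_cont hx).matrix_mul continuous_const).matrix_mul
        ((continuous_const.matrix_mul (Bo_cont hx).matrix_transpose).matrix_mul continuous_const))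
    (fun t => conj_mem (Bo_Iso (pth_mem hx t)) J0_mem) (t₀ := 0)
    (by
      simp only [pth_zero, Bo_base]
      unfold gi
      rw [one_mul, transpose_one, mul_one, Gm_sq, mul_one]
      exact h0) 1
  simpa only [pth_one hx] using h1

end Pool.Agent.Helper80.TW
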