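import Mathlib

/-!
# Closed symplectic manifolds, Gromov width, twistor spaces of hyperbolic manifolds: definitions

`Sp ι` is the real vector space with coordinates `x i = u (inl i)`, `y i = u (inr i)` (`i : ι`),
`om0 = ∑ dx_i ∧ dy_i`. A symplectic manifold is a space `M` with an atlas of Darboux charts: the
transition maps are smooth and preserve `om0`.

`Mat n` are the real matrices of size `2n+2`, with rows and columns indexed by
`Fin (n+1) ⊕ Fin (n+1)`; `Gm n` is the symmetric form with `2n` entries `1` and two entries `-1`,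
at `inl (last n)` (the vector `e`) and at `inr (last n)` (the vector `f`).
The orthogonal complement of `e` is `ℝ^(2n,1)`; its hyperboloid `Hyp n` is hyperbolic space of
dimension `2n`, and `f` is a point of it.
-/

open scoped ContDiff Matrix ENNReal
open Matrix

namespace Pool.Agent.Helper80.TW

section Symplectic

/-- The real vector space with coordinates `x i`, `y i`, `i : ι`. -/
abbrev Sp (ι : Type) : Type := ι ⊕ ι → ℝ

variable {ι : Type} [Fintype ι]

/-- The standard symplectic form `∑ dx_i ∧ dy_i`. -/
def om0 (u v : Sp ι) : ℝ :=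
  ∑ i, (u (Sum.inl i) * v (Sum.inr i) - u (Sum.inr i) * v (Sum.inl i))

/-- The open ball of radius `r` about `0`. -/
def Bll (ι : Type) [Fintype ι] (r : ℝ) : Set (Sp ι) := {y | ∑ i, y i ^ 2 < r ^ 2}

/-- The derivative of the function `f` at `y` in the direction `u`. -/
noncomputable def dd (f : Sp ι → ℝ) (y u : Sp ι) : ℝ := fderiv ℝ f y u

/-- `f` is smooth on `U`. -/
def Sm (f : Sp ι → ℝ) (U : Set (Sp ι)) : Prop := ContDiffOn ℝ ∞ f U

/-- The pull-back of `om0` by `f`, at the point `y`, on `u`, `v`. -/
noncomputable def pb (f : Sp ι → Sp ι) (y u v : Sp ι) : ℝ :=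
  om0 (fun i => dd (fun z => f z i) y u) (fun i => dd (fun z => f z i) y v)

/-- `f` is smooth on `U` and preserves `om0`. -/
def SympOn (f : Sp ι → Sp ι) (U : Set (Sp ι)) : Prop :=
  (∀ i, Sm (fun z => f z i) U) ∧ ∀ y ∈ U, ∀ u v, pb f y u v = om0 u v

/-- A symplectic manifold: a topological space with an atlas of Darboux charts. The symplectic form
is the one which is `om0` in all these charts. -/
structure Symp (ι : Type) [Fintype ι] (M : Type) [TopologicalSpace M] where
  /-- the charts -/
  charts : Set (OpenPartialHomeomorph M (Sp ι))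
  cover : ∀ x : M, ∃ c ∈ charts, x ∈ c.source
  compat : ∀ c ∈ charts, ∀ c' ∈ charts,
    SympOn (fun z => c' (c.symm z)) (c.target ∩ c.symm ⁻¹' c'.source)

variable {M : Type} [TopologicalSpace M]

/-- `f` is a symplectic embedding of the open ball of radius `r` with the standard form: continuous
and injective on the ball, smooth and symplectic in the charts of `M`. -/
def IsBall (S : Symp ι M) (r : ℝ) (f : Sp ι → M) : Prop :=
  ContinuousOn f (Bll ι r) ∧ Set.InjOn f (Bll ι r) ∧
    ∀ c ∈ S.charts, SympOn (fun z => c (f z)) (Bll ι r ∩ f ⁻¹' c.source)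

/-- The Gromov width: supremum of `π r²` over the embedded balls of radius `r > 0`. -/
noncomputable def gromovWidth (S : Symp ι M) : ℝ≥0∞ :=
  sSup {w | ∃ r : ℝ, 0 < r ∧ (∃ f : Sp ι → M, IsBall S r f) ∧ w = ENNReal.ofReal (Real.pi * r ^ 2)}

end Symplectic

section Twistor

variable (n : ℕ)

/-- The sign of a coordinate: `-1` for the last one, `1` for the others. -/
def eps (i : Fin (n + 1)) : ℝ := if i = Fin.last n then -1 else 1

/-- Real matrices of size `2n+2`. -/
abbrev Mat : Type := Matrix (Fin (n + 1) ⊕ Fin (n + 1)) (Fin (n + 1) ⊕ Fin (n + 1)) ℝ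

/-- Vectors of length `2n+2`. -/
abbrev Vec : Type := Fin (n + 1) ⊕ Fin (n + 1) → ℝ

/-- The symmetric form of signature `(2n, 2)`. -/
def Gm : Mat n := Matrix.diagonal (Sum.elim (eps n) (eps n))

/-- The index of the vector `e`. -/
def ie : Fin (n + 1) ⊕ Fin (n + 1) := Sum.inl (Fin.last n)

/-- The index of the vector `f`. -/
def iF : Fin (n + 1) ⊕ Fin (n + 1) := Sum.inr (Fin.last n)

/-- The bilinear form of `Gm n`. -/
def bil (x y : Vec n) : ℝ := x ⬝ᵥ (Gm n *ᵥ y)

/-- Hyperbolic space of dimension `2n`: the vectors `x` orthogonal to `e` with `x² = -1` and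
positive `f` coordinate. -/
def Hyp : Set (Vec n) := {x | x (ie n) = 0 ∧ bil n x x = -1 ∧ 0 < x (iF n)}

/-- Hyperbolic distance: `cosh d = - ⟨x, y⟩`. -/
noncomputable def hdist (x y : Vec n) : ℝ := Real.arcosh (- bil n x y)

/-- The matrices which preserve the form `Gm n`. -/
def Orth : Set (Mat n) := {g | gᵀ * Gm n * g = Gm n}

/-- The isometries of hyperbolic space: the matrices which preserve the form, fix `e` and
preserve the sign of the `f` coordinate of time-like vectors. -/
def Iso : Set (Mat n) :=
  {g | g ∈ Orth n ∧ g *ᵥ Pi.single (ie n) 1 = Pi.single (ie n) 1 ∧ 0 < g (iF n) (iF n)}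

/-- The space of all pairs (point `x` of hyperbolic space, orthogonal complex structure on the
tangent space at `x`), as the set of the matrices `J` with `J² = -1` which preserve the form and
for which `x = J e` has positive `f` coordinate: `J` exchanges `e` and `x` up to sign and is the
complex structure on the orthogonal complement of `e` and `x`, the tangent space at `x`. -/
def Z : Set (Mat n) := {J | J * J = -1 ∧ J ∈ Orth n ∧ 0 < J (iF n) (ie n)}

/-- The standard element of `Z n`, over the point `f`. -/
def J0 : Mat n := fromBlocks 0 (-1) 1 0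

/-- The derivative of a matrix valued function `F` at `y` in the direction `u`. -/
noncomputable def Dm {ι : Type} [Fintype ι] (F : Sp ι → Mat n) (y u : Sp ι) : Mat n :=
  Matrix.of fun i j => dd (fun z => F z i j) y u

/-- The invariant symplectic form of the twistor space, normalised such that the projective lines
of the fibres have area `2(n-2)`: `Ω_J(U, V) = (n-2)/(8π) · tr (J U V)`. -/
noncomputable def tform (J U V : Mat n) : ℝ := ((n : ℝ) - 2) / (8 * Real.pi) * (J * U * V).trace

/-- The index set of the coordinates: pairs `j < k` in `{0, …, n}`. -/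
abbrev Prs : Type := {p : Fin (n + 1) × Fin (n + 1) // p.1 < p.2}

variable {n}

/-- The action of isometries on `Z n`. -/
def act (γ : (Mat n)ˣ) (J : Mat n) : Mat n := (γ : Mat n) * J * ((γ⁻¹ : (Mat n)ˣ) : Mat n)

/-- `F` is a smooth map from `U` to `W`. -/
def SmInto (W : Set (Mat n)) (U : Set (Sp (Prs n))) (F : Sp (Prs n) → Mat n) : Prop :=
  (∀ i j, Sm (fun y => F y i j) U) ∧ ∀ y ∈ U, F y ∈ W

/-- On `U` the map `h` is smooth and `h^* om0 = F^* tform`. -/
def SameForm (h : Sp (Prs n) → Sp (Prs n)) (F : Sp (Prs n) → Mat n) (U : Set (Sp (Prs n))) : Prop :=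
  (∀ i, Sm (fun z => h z i) U) ∧
    ∀ y ∈ U, ∀ u v, pb h y u v = tform n (F y) (Dm n F y u) (Dm n F y v)

/-- The map `p` from `W` to `M` is smooth and pulls the symplectic form of `M` back to `tform`
(tested on the smooth maps `F` from open sets `U` to `W`). -/
def PullsBack {M : Type} [TopologicalSpace M] (S : Symp (Prs n) M) (W : Set (Mat n))
    (p : Mat n → M) : Prop :=
  ∀ U : Set (Sp (Prs n)), IsOpen U → ∀ F, SmInto W U F → ContinuousOn (fun y => p (F y)) U ∧
    ∀ c ∈ S.charts, SameForm (fun z => c (p (F z))) F (U ∩ (fun z => p (F z)) ⁻¹' c.source)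

/-- `W` is a union of connected components of `Z n` (one or both orientations) which contains
`J0 n`, and `Γ` acts on it by isometries of hyperbolic space. -/
structure ActsOn (Γ : Subgroup (Mat n)ˣ) (W : Set (Mat n)) : Prop where
  iso : ∀ γ ∈ Γ, (γ : Mat n) ∈ Iso n
  inv : ∀ γ ∈ Γ, ∀ J ∈ W, act γ J ∈ W
  sub : W ⊆ Z n
  base : J0 n ∈ W
  /-- `W` is open and closed in `Z n` -/
  clopen : IsClopen {J : Z n | (J : Mat n) ∈ W}

/-- `M` is the quotient of `W` by `Γ` as a symplectic manifold, by the map `p`. -/
structure IsTwistorQuotient {M : Type} [TopologicalSpace M] (S : Symp (Prs n) M)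
    (Γ : Subgroup (Mat n)ˣ) (W : Set (Mat n)) (p : Mat n → M) : Prop where
  acts : ActsOn Γ W
  surj : ∀ x : M, ∃ J ∈ W, p J = x
  /-- the fibres of `p` are the orbits of `Γ` -/
  fibres : ∀ J ∈ W, ∀ J' ∈ W, p J = p J' ↔ ∃ γ ∈ Γ, J' = act γ J
  form : PullsBack S W p

end Twistor

end Pool.Agent.Helper80.TW
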