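import Pool.Agent.Helper80.TW.Sqrt
import Pool.Agent.Helper80.TW.Defs

/-!
# The matrices `J(T)`
-/

namespace Pool.Agent.Helper80.TW

open Matrix
open scoped Matrix.Norms.L2Operator

variable {n : ℕ}

/-- The complex sign matrix. -/
noncomputable def DD (n : ℕ) : Matrix (Fin (n + 1)) (Fin (n + 1)) ℂ :=
  Matrix.diagonal (fun i => (eps n i : ℂ))

theorem eps_sq (i : Fin (n + 1)) : eps n i * eps n i = 1 := by
  unfold eps; split_ifs <;> norm_num

theorem isSign_DD : IsSign (DD n) where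
  sq := by
    unfold DD
    rw [Matrix.diagonal_mul_diagonal, ← Matrix.diagonal_one]
    congr 1
    funext i
    exact_mod_cast eps_sq i
  tr := by unfold DD; rw [Matrix.diagonal_transpose]
  cj := by
    unfold DD cj
    rw [Matrix.diagonal_map (by simp)]
    congr 1
    funext i
    simp
  norm := by
    unfold DD
    rw [l2_opNorm_diagonal]
    refine (pi_norm_le_iff_of_nonneg zero_le_one).2 (fun i => ?_)
    rw [Complex.norm_real]
    unfold eps; split_ifs <;> simp

theorem Gm_eq : Gm n = Rm (DD n) 0 := by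
  unfold Gm Rm DD
  ext (i | i) (j | j)
  · by_cases h : i = j
    · subst h; simp [re]
    · simp [re, h, Matrix.diagonal_apply]
  · simp [im]
  · simp [im]
  · by_cases h : i = j
    · subst h; simp [re]
    · simp [re, h, Matrix.diagonal_apply]

theorem J0_eq : J0 n = Rm (Complex.I • (1 : Matrix (Fin (n + 1)) (Fin (n + 1)) ℂ)) 0 := by
  unfold J0 Rm
  congr 1
  · ext i j; simp [re, Matrix.one_apply]; split_ifs <;> simp
  · ext i j; simp [im, Matrix.one_apply]; split_ifs <;> simp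
  · ext i j; simp [im, Matrix.one_apply]; split_ifs <;> simp
  · ext i j; simp [re, Matrix.one_apply]; split_ifs <;> simp

theorem J0_sq : J0 n * J0 n = -1 := by
  unfold J0
  rw [fromBlocks_multiply, ← fromBlocks_one, fromBlocks_neg]
  congr 1 <;> simp

theorem Gm_sq : Gm n * Gm n = 1 := by
  unfold Gm
  rw [Matrix.diagonal_mul_diagonal, ← Matrix.diagonal_one]
  congr 1
  funext i
  rcases i with i | i <;> simp [eps_sq]

theorem Gm_tr : (Gm n)ᵀ = Gm n := by unfold Gm; rw [Matrix.diagonal_transpose]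

theorem J0_tr : (J0 n)ᵀ = - J0 n := by
  unfold J0
  rw [fromBlocks_transpose, fromBlocks_neg]
  congr 1 <;> simp

theorem J0_comm : J0 n * Gm n = Gm n * J0 n := by
  rw [J0_eq, Gm_eq, Rm_mul, Rm_mul]
  congr 1 <;> simp

variable (T : Matrix (Fin (n + 1)) (Fin (n + 1)) ℂ)

/-- The orthogonal matrix of `z ↦ S z + T̄ z̄`. -/
noncomputable def gM : Mat n := Rm (SS T) (cj T)

/-- Its inverse. -/
noncomputable def gI : Mat n := Rm (SS T) (-cj T)

/-- The complex structure `J(T)`. -/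
noncomputable def JT : Mat n := gM T * J0 n * gI T

variable {T}

theorem gM_mul_gI (h : Sk (DD n) T) (h1 : ‖T‖ < 1) : gM T * gI T = 1 := by
  unfold gM gI
  rw [Rm_mul, cj_neg, cj_cj, ← Rm_one]
  congr 1
  · rw [SS_mul_self isSign_DD h h1]; simp
  · rw [cjT_mul_cjSS isSign_DD h h1]; simp

theorem gI_mul_gM (h : Sk (DD n) T) (h1 : ‖T‖ < 1) : gI T * gM T = 1 := by
  unfold gM gI
  rw [Rm_mul, cj_cj, ← Rm_one]
  congr 1
  · rw [SS_mul_self isSign_DD h h1]; simp
  · rw [neg_mul, cjT_mul_cjSS isSign_DD h h1]; simp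

theorem gM_adj (h : Sk (DD n) T) (h1 : ‖T‖ < 1) : Gm n * (gM T)ᵀ * Gm n = gI T := by
  unfold gM gI
  rw [Rm_transpose, Gm_eq, Rm_mul, Rm_mul]
  have hc := isSign_DD (n := n)
  rw [cj_zero, mul_zero, add_zero, zero_mul, add_zero, mul_zero, zero_add, hc.cj]
  congr 1
  · exact SS_adj hc h h1
  · rw [transpose_cj, zero_mul, add_zero]
    exact h.cj' hc

theorem gI_adj (h : Sk (DD n) T) (h1 : ‖T‖ < 1) : Gm n * (gI T)ᵀ * Gm n = gM T := by
  rw [← gM_adj h h1, transpose_mul, transpose_mul, transpose_transpose, Gm_tr]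
  calc Gm n * (Gm n * (gM T * Gm n)) * Gm n = (Gm n * Gm n) * gM T * (Gm n * Gm n) := by
        simp only [mul_assoc]
    _ = _ := by rw [Gm_sq, one_mul, mul_one]

theorem gM_orth (h : Sk (DD n) T) (h1 : ‖T‖ < 1) : (gM T)ᵀ * Gm n * gM T = Gm n := by
  have h2 : Gm n * ((gM T)ᵀ * Gm n * gM T) = 1 := by
    rw [← gI_mul_gM h h1, ← gM_adj h h1]; simp only [mul_assoc]
  calc (gM T)ᵀ * Gm n * gM T = (Gm n * Gm n) * ((gM T)ᵀ * Gm n * gM T) := by
        rw [Gm_sq, one_mul]
    _ = Gm n * (Gm n * ((gM T)ᵀ * Gm n * gM T)) := by simp only [mul_assoc]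
    _ = _ := by rw [h2, mul_one]

theorem gI_orth (h : Sk (DD n) T) (h1 : ‖T‖ < 1) : (gI T)ᵀ * Gm n * gI T = Gm n := by
  have h2 : Gm n * ((gI T)ᵀ * Gm n * gI T) = 1 := by
    have := gM_mul_gI h h1
    rw [← gI_adj h h1] at this
    rw [← this]; simp only [mul_assoc]
  calc (gI T)ᵀ * Gm n * gI T = (Gm n * Gm n) * ((gI T)ᵀ * Gm n * gI T) := by
        rw [Gm_sq, one_mul]
    _ = Gm n * (Gm n * ((gI T)ᵀ * Gm n * gI T)) := by simp only [mul_assoc]
    _ = _ := by rw [h2, mul_one]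

theorem JT_sq (h : Sk (DD n) T) (h1 : ‖T‖ < 1) : JT T * JT T = -1 := by
  unfold JT
  calc gM T * J0 n * gI T * (gM T * J0 n * gI T)
      = gM T * J0 n * (gI T * gM T) * J0 n * gI T := by simp only [mul_assoc]
    _ = gM T * (J0 n * J0 n) * gI T := by rw [gI_mul_gM h h1, mul_one]; simp only [mul_assoc]
    _ = -1 := by rw [J0_sq, mul_neg, mul_one, neg_mul, gM_mul_gI h h1]

theorem J0_orth : (J0 n)ᵀ * Gm n * J0 n = Gm n := by
  rw [J0_tr, neg_mul, neg_mul, mul_assoc, ← J0_comm, ← mul_assoc, J0_sq]; simp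

theorem JT_orth (h : Sk (DD n) T) (h1 : ‖T‖ < 1) : (JT T)ᵀ * Gm n * JT T = Gm n := by
  unfold JT
  rw [transpose_mul, transpose_mul]
  calc (gI T)ᵀ * ((J0 n)ᵀ * (gM T)ᵀ) * Gm n * (gM T * J0 n * gI T)
      = (gI T)ᵀ * ((J0 n)ᵀ * ((gM T)ᵀ * Gm n * gM T) * J0 n) * gI T := by
        simp only [mul_assoc]
    _ = Gm n := by rw [gM_orth h h1, J0_orth, gI_orth h h1]

theorem gM_mul_J0 : gM T * J0 n = Rm (Complex.I • SS T) (-(Complex.I • cj T)) := by
  have hI : cj (Complex.I • (1 : Matrix (Fin (n + 1)) (Fin (n + 1)) ℂ)) = -(Complex.I • 1) := by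
    ext i j; simp [cj, Matrix.one_apply]; split_ifs <;> simp
  unfold gM
  rw [J0_eq, Rm_mul, hI, cj_zero, mul_zero, mul_zero, add_zero, zero_add, mul_neg,
    mul_smul_comm, mul_one, mul_smul_comm, mul_one]

theorem JT_eq (h : Sk (DD n) T) (h1 : ‖T‖ < 1) :
    JT T = Rm (Complex.I • (1 + (cj T * T + cj T * T))) (-(2 * Complex.I) • (SS T * cj T)) := by
  unfold JT
  rw [gM_mul_J0]
  unfold gI
  rw [Rm_mul]
  congr 1
  · rw [cj_neg, cj_cj, neg_mul_neg, smul_mul_assoc, smul_mul_assoc, ← smul_add,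
      SS_mul_self isSign_DD h h1]
    congr 1
    abel
  · rw [mul_neg, neg_mul, smul_mul_assoc, smul_mul_assoc, cjT_mul_cjSS isSign_DD h h1, neg_smul,
      mul_smul, two_smul]
    abel

/-- Injectivity. -/
theorem JT_inj {T' : Matrix (Fin (n + 1)) (Fin (n + 1)) ℂ} (h : Sk (DD n) T) (h1 : ‖T‖ < 1)
    (h' : Sk (DD n) T') (h1' : ‖T'‖ < 1) (hJ : JT T = JT T') : T = T' := by
  rw [JT_eq h h1, JT_eq h' h1'] at hJ
  obtain ⟨e1, e2⟩ := Rm_inj hJ
  have hI : (Complex.I : ℂ) ≠ 0 := Complex.I_ne_zero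
  have e3 : cj T * T = cj T' * T' := by
    have e4 := smul_right_injective _ hI e1
    have e5 : cj T * T + cj T * T = cj T' * T' + cj T' * T' := add_left_cancel e4
    rw [← two_smul ℂ (cj T * T), ← two_smul ℂ (cj T' * T')] at e5
    exact smul_right_injective _ (two_ne_zero (α := ℂ)) e5
  have e6 : SS T = SS T' := by unfold SS; rw [e3]
  have e7 : SS T * cj T = SS T' * cj T' := by
    have h2 : -(2 * Complex.I) ≠ 0 := by simp [hI]
    exact smul_right_injective _ h2 e2
  rw [← e6] at e7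
  have e8 : cj T = cj T' := (SS_isUnit isSign_DD h h1).mul_left_cancel e7
  have := congrArg cj e8
  rwa [cj_cj, cj_cj] at this

/-- The height of the base point. -/
theorem JT_height (h : Sk (DD n) T) (h1 : ‖T‖ < 1) :
    JT T (iF n) (ie n) = 1 + 2 * ∑ j, ‖T (Fin.last n) j‖ ^ 2 := by
  have hc := isSign_DD (n := n)
  have hskew : ∀ (A : Matrix (Fin (n + 1)) (Fin (n + 1)) ℂ), Sk (DD n) A →
      ∀ i j, (eps n i : ℂ) * A j i * (eps n j : ℂ) = - A i j := by
    intro A hA i j
    have := congrFun (congrFun hA i) j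
    unfold DD at this
    rw [Matrix.mul_diagonal, Matrix.diagonal_mul] at this
    simpa using this
  have hlast : eps n (Fin.last n) = -1 := by simp [eps]
  have hSc : (SS T * cj T) (Fin.last n) (Fin.last n) = 0 := by
    have hsk : Sk (DD n) (SS T * cj T) := by
      unfold Sk
      have e1 : DD n * (SS T)ᵀ * DD n = cj (SS T) := by
        have := congrArg cj (SS_adj hc h h1)
        rw [cj_mul, cj_mul, hc.cj, cj_conjTranspose] at this
        exact this
      have e2 : DD n * (cj T)ᵀ * DD n = - cj T := h.conj hc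
      calc DD n * (SS T * cj T)ᵀ * DD n = DD n * (cj T)ᵀ * 1 * (SS T)ᵀ * DD n := by
            rw [transpose_mul, mul_one]; simp only [mul_assoc]
        _ = (DD n * (cj T)ᵀ * DD n) * (DD n * (SS T)ᵀ * DD n) := by
            rw [← hc.sq]; simp only [mul_assoc]
        _ = _ := by rw [e1, e2, neg_mul, cjT_mul_cjSS hc h h1]
    have := hskew _ hsk (Fin.last n) (Fin.last n)
    rw [hlast] at this
    have h3 : (SS T * cj T) (Fin.last n) (Fin.last n) = -(SS T * cj T) (Fin.last n) (Fin.last n) := by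
      rw [← this]; push_cast; ring
    exact self_eq_neg.1 h3
  have hX : ((cj T * T) (Fin.last n) (Fin.last n)) = ((∑ j, ‖T (Fin.last n) j‖ ^ 2 : ℝ) : ℂ) := by
    rw [Matrix.mul_apply]
    push_cast
    refine Finset.sum_congr rfl (fun j _ => ?_)
    have h4 := hskew T h (Fin.last n) j
    rw [hlast] at h4
    have h5 : T j (Fin.last n) = T (Fin.last n) j := by
      by_cases hj : j = Fin.last n
      · rw [hj]
      · have : eps n j = 1 := by simp [eps, hj]
        rw [this] at h4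
        push_cast at h4
        linear_combination -h4
    rw [h5]
    simp only [cj, Matrix.map_apply]
    rw [mul_comm, Complex.mul_conj, Complex.normSq_eq_norm_sq]
    push_cast; rfl
  rw [JT_eq h h1]
  have h6 : Rm (Complex.I • (1 + (cj T * T + cj T * T))) (-(2 * Complex.I) • (SS T * cj T))
      (iF n) (ie n) =
      (Complex.I * (1 + ((cj T * T) (Fin.last n) (Fin.last n) +
        (cj T * T) (Fin.last n) (Fin.last n)))).im +
      (-(2 * Complex.I) * (SS T * cj T) (Fin.last n) (Fin.last n)).im := by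
    simp [Rm, iF, ie, im]
  rw [h6, hSc, hX]
  generalize (∑ j, ‖T (Fin.last n) j‖ ^ 2) = a
  simp
  ring

end Pool.Agent.Helper80.TW
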