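import Pool.Agent.Helper80.TW.Chart

/-!
# The coordinates: the matrix `T(y)`
-/

namespace Pool.Agent.Helper80.TW

open Matrix
open scoped Matrix.Norms.L2Operator ContDiff

variable {n : ℕ}

/-- The complex coordinate of index `p`. -/
noncomputable def wc (y : Sp (Prs n)) (p : Prs n) : ℂ :=
  ⟨y (Sum.inl p), eps n p.1.2 * y (Sum.inr p)⟩

/-- The matrix `T(y)`. -/
noncomputable def Tm (y : Sp (Prs n)) : Matrix (Fin (n + 1)) (Fin (n + 1)) ℂ :=
  Matrix.of fun j k => if h : j < k then wc y ⟨(j, k), h⟩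
    else if h : k < j then -((eps n j : ℝ) : ℂ) * wc y ⟨(k, j), h⟩ else 0

theorem wc_add (y z : Sp (Prs n)) (p : Prs n) : wc (y + z) p = wc y p + wc z p := by
  unfold wc
  apply Complex.ext <;> simp
  ring

theorem wc_smul (a : ℝ) (y : Sp (Prs n)) (p : Prs n) : wc (a • y) p = (a : ℂ) * wc y p := by
  unfold wc
  apply Complex.ext <;> simp
  ring

theorem Tm_add (y z : Sp (Prs n)) : Tm (y + z) = Tm y + Tm z := by
  ext j k
  simp only [Tm, Matrix.of_apply, Matrix.add_apply]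
  split_ifs
  · exact wc_add _ _ _
  · rw [wc_add]; ring
  · simp

theorem Tm_smul (a : ℝ) (y : Sp (Prs n)) : Tm (a • y) = (a : ℂ) • Tm y := by
  ext j k
  simp only [Tm, Matrix.of_apply, Matrix.smul_apply, smul_eq_mul]
  split_ifs
  · exact wc_smul _ _ _
  · rw [wc_smul]; ring
  · simp

theorem eps_of_lt {j k : Fin (n + 1)} (h : j < k) : eps n j = 1 := by
  unfold eps
  rw [if_neg]
  intro h2
  rw [h2] at h
  exact absurd h (not_lt.2 (Fin.le_last k))

theorem Tm_lt (y : Sp (Prs n)) (p : Prs n) : Tm y p.1.1 p.1.2 = wc y p := by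
  simp only [Tm, Matrix.of_apply]
  rw [dif_pos p.2]

theorem Tm_gt (y : Sp (Prs n)) (p : Prs n) :
    Tm y p.1.2 p.1.1 = -((eps n p.1.2 : ℝ) : ℂ) * wc y p := by
  simp only [Tm, Matrix.of_apply]
  rw [dif_neg (not_lt.2 p.2.le), dif_pos p.2]

theorem Tm_diag (y : Sp (Prs n)) (j : Fin (n + 1)) : Tm y j j = 0 := by
  simp [Tm]

theorem Tm_skew_entry (y : Sp (Prs n)) (j k : Fin (n + 1)) :
    ((eps n j : ℝ) : ℂ) * Tm y k j * ((eps n k : ℝ) : ℂ) = - Tm y j k := by
  rcases lt_trichotomy j k with h | h | h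
  · have h1 := Tm_lt y ⟨(j, k), h⟩
    have h2 := Tm_gt y ⟨(j, k), h⟩
    simp only at h1 h2
    rw [h1, h2, eps_of_lt h]
    have h3 : ((eps n k : ℝ) : ℂ) * ((eps n k : ℝ) : ℂ) = 1 := by exact_mod_cast eps_sq k
    push_cast
    linear_combination (-wc y ⟨(j, k), h⟩) * h3
  · subst h; rw [Tm_diag]; simp
  · have h1 := Tm_lt y ⟨(k, j), h⟩
    have h2 := Tm_gt y ⟨(k, j), h⟩
    simp only at h1 h2
    rw [h1, h2, eps_of_lt h]
    push_cast
    ring

theorem Tm_sk (y : Sp (Prs n)) : Sk (DD n) (Tm y) := by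
  unfold Sk DD
  ext j k
  rw [Matrix.mul_diagonal, Matrix.diagonal_mul, Matrix.transpose_apply, Tm_skew_entry]
  rfl

theorem sum_prs (F : Fin (n + 1) → Fin (n + 1) → ℝ) :
    ∑ p : Prs n, F p.1.1 p.1.2 = ∑ j, ∑ k, if j < k then F j k else 0 := by
  rw [← Fintype.sum_prod_type' (fun j k => if j < k then F j k else 0)]
  rw [← Finset.sum_filter]
  rw [← Finset.sum_subtype (Finset.univ.filter fun p : Fin (n + 1) × Fin (n + 1) => p.1 < p.2)
    (by simp) (fun p => F p.1 p.2)]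

/-- Sums over the ordered pairs of a symmetric function without diagonal. -/
theorem sum_pairs (F : Fin (n + 1) → Fin (n + 1) → ℝ) (hs : ∀ j k, F j k = F k j)
    (hd : ∀ j, F j j = 0) : ∑ j, ∑ k, F j k = 2 * ∑ p : Prs n, F p.1.1 p.1.2 := by
  have h1 := sum_prs F
  have h2 : ∑ j, ∑ k, (if k < j then F j k else 0) = ∑ j, ∑ k, if j < k then F j k else 0 := by
    rw [Finset.sum_comm]
    refine Finset.sum_congr rfl (fun j _ => Finset.sum_congr rfl (fun k _ => ?_))
    rw [hs]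
  have h3 : ∑ j, ∑ k, F j k = (∑ j, ∑ k, if j < k then F j k else 0) +
      ∑ j, ∑ k, (if k < j then F j k else 0) := by
    rw [← Finset.sum_add_distrib]
    refine Finset.sum_congr rfl (fun j _ => ?_)
    rw [← Finset.sum_add_distrib]
    refine Finset.sum_congr rfl (fun k _ => ?_)
    rcases lt_trichotomy j k with h | h | h
    · simp [h, h.le]
    · subst h; simp [hd]
    · simp [h, h.le]
  rw [h3, h2, h1]; ring

theorem norm_eps (j : Fin (n + 1)) : ‖((eps n j : ℝ) : ℂ)‖ = 1 := by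
  rw [Complex.norm_real]
  unfold eps; split_ifs <;> simp

theorem norm_wc_sq (y : Sp (Prs n)) (p : Prs n) :
    ‖wc y p‖ ^ 2 = y (Sum.inl p) ^ 2 + y (Sum.inr p) ^ 2 := by
  rw [← Complex.normSq_eq_norm_sq, Complex.normSq_apply]
  unfold wc
  have := eps_sq p.1.2
  simp only
  linear_combination (y (Sum.inr p) ^ 2) * this

theorem sum_wc_sq (y : Sp (Prs n)) : ∑ p : Prs n, ‖wc y p‖ ^ 2 = ∑ i, y i ^ 2 := by
  rw [Fintype.sum_sum_type, ← Finset.sum_add_distrib]
  exact Finset.sum_congr rfl (fun p _ => norm_wc_sq y p)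

theorem norm_Tm_entry (y : Sp (Prs n)) (j k : Fin (n + 1)) : ‖Tm y j k‖ = ‖Tm y k j‖ := by
  have h := congrArg norm (Tm_skew_entry y j k)
  rw [norm_mul, norm_mul, norm_eps, norm_eps, norm_neg] at h
  linarith

theorem norm_Tm_le (y : Sp (Prs n)) : ‖Tm y‖ ^ 2 ≤ ∑ i, y i ^ 2 := by
  have h1 := norm_T_sq_le isSign_DD (Tm_sk y)
  have h2 : ∀ j k, ‖(DD n * Tm y) j k‖ ^ 2 = ‖Tm y j k‖ ^ 2 := by
    intro j k
    unfold DD
    rw [Matrix.diagonal_mul, norm_mul, norm_eps, one_mul]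
  simp_rw [h2] at h1
  rw [sum_pairs (fun j k => ‖Tm y j k‖ ^ 2) (fun j k => by rw [norm_Tm_entry])
    (fun j => by rw [Tm_diag]; simp)] at h1
  simp_rw [Tm_lt] at h1
  rw [sum_wc_sq] at h1
  linarith

/-- The last row has at most the norm of the vector. -/
theorem last_row_le (y : Sp (Prs n)) : ∑ j, ‖Tm y (Fin.last n) j‖ ^ 2 ≤ ∑ i, y i ^ 2 := by
  rw [← sum_wc_sq]
  have h1 : ∑ j, ‖Tm y (Fin.last n) j‖ ^ 2 =
      ∑ p : Prs n, if p.1.2 = Fin.last n then ‖wc y p‖ ^ 2 else 0 := by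
    have h2 := sum_prs (n := n) (fun j k => if k = Fin.last n then ‖Tm y j k‖ ^ 2 else 0)
    simp_rw [Tm_lt] at h2
    rw [h2]
    refine Finset.sum_congr rfl (fun j _ => ?_)
    rw [Finset.sum_eq_single (Fin.last n)]
    · by_cases hj : j < Fin.last n
      · simp only [hj, if_true]; rw [norm_Tm_entry]
      · have : j = Fin.last n := le_antisymm (Fin.le_last j) (not_lt.1 hj)
        subst this; simp [Tm_diag]
    · intro k _ hk
      simp [hk]
    · intro h; exact absurd (Finset.mem_univ _) h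
  rw [h1]
  refine Finset.sum_le_sum (fun p _ => ?_)
  split_ifs
  · exact le_refl _
  · positivity

theorem Tm_swap (v : Sp (Prs n)) (j k : Fin (n + 1)) :
    Tm v k j = -(((eps n j * eps n k : ℝ)) : ℂ) * Tm v j k := by
  have h4 := Tm_skew_entry v j k
  have h5 : ((eps n j : ℝ) : ℂ) * ((eps n j : ℝ) : ℂ) = 1 := by exact_mod_cast eps_sq j
  have h6 : ((eps n k : ℝ) : ℂ) * ((eps n k : ℝ) : ℂ) = 1 := by exact_mod_cast eps_sq k
  push_cast
  linear_combination (((eps n j : ℝ) : ℂ) * ((eps n k : ℝ) : ℂ)) * h4 -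
    (Tm v k j * (((eps n k : ℝ) : ℂ) * ((eps n k : ℝ) : ℂ))) * h5 - Tm v k j * h6

/-- The pairing of two tangent vectors. -/
theorem trace_pairing (u v : Sp (Prs n)) : ((cj (Tm u) * Tm v).trace).im = -2 * om0 u v := by
  have h1 : ((cj (Tm u) * Tm v).trace).im =
      ∑ j, ∑ k, ((starRingEnd ℂ) (Tm u j k) * Tm v k j).im := by
    simp only [Matrix.trace, Matrix.diag_apply, Matrix.mul_apply, Complex.im_sum, cj,
      Matrix.map_apply]
  have h2 : ∀ j k, ((starRingEnd ℂ) (Tm u j k) * Tm v k j).im =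
      -(eps n j * eps n k * ((starRingEnd ℂ) (Tm u j k) * Tm v j k).im) := by
    intro j k
    have h7 : (starRingEnd ℂ) (Tm u j k) * Tm v k j =
        ((-(eps n j * eps n k) : ℝ) : ℂ) * ((starRingEnd ℂ) (Tm u j k) * Tm v j k) := by
      rw [Tm_swap v j k]
      push_cast; ring
    rw [h7, Complex.im_ofReal_mul]
    ring
  have hsym : ∀ j k, ((starRingEnd ℂ) (Tm u k j) * Tm v k j).im =
      ((starRingEnd ℂ) (Tm u j k) * Tm v j k).im := by
    intro j k
    congr 1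
    rw [Tm_swap u j k, Tm_swap v j k]
    have h5 : ((eps n j : ℝ) : ℂ) * ((eps n j : ℝ) : ℂ) = 1 := by exact_mod_cast eps_sq j
    have h6 : ((eps n k : ℝ) : ℂ) * ((eps n k : ℝ) : ℂ) = 1 := by exact_mod_cast eps_sq k
    rw [map_mul, map_neg, Complex.conj_ofReal]
    push_cast
    linear_combination ((starRingEnd ℂ) (Tm u j k) * Tm v j k *
      (((eps n k : ℝ) : ℂ) * ((eps n k : ℝ) : ℂ))) * h5 +
      ((starRingEnd ℂ) (Tm u j k) * Tm v j k) * h6
  rw [h1]
  simp_rw [h2]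
  rw [sum_pairs (fun j k => -(eps n j * eps n k * ((starRingEnd ℂ) (Tm u j k) * Tm v j k).im))
    (fun j k => by rw [hsym j k]; ring) (fun j => by rw [Tm_diag]; simp)]
  unfold om0
  rw [neg_mul, ← mul_neg, ← Finset.sum_neg_distrib]
  congr 1
  refine Finset.sum_congr rfl (fun p _ => ?_)
  rw [Tm_lt, Tm_lt, eps_of_lt p.2]
  unfold wc
  have := eps_sq p.1.2
  simp only [Complex.mul_im, Complex.conj_re, Complex.conj_im]
  linear_combination (-(u (Sum.inl p) * v (Sum.inr p)) + u (Sum.inr p) * v (Sum.inl p)) * this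

end Pool.Agent.Helper80.TW
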