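import Pool.Agent.Helper80.TW.Coord

/-!
# Derivatives of matrix valued functions, and the form `tr (J dJ dJ)`
-/

namespace Pool.Agent.Helper80.TW

open Matrix Topology Filter

variable {n : ℕ} {ι : Type} [Fintype ι]

/-- The entries are differentiable at `y`. -/
def DiffM (F : Sp ι → Mat n) (y : Sp ι) : Prop := ∀ i j, DifferentiableAt ℝ (fun z => F z i j) y

theorem Dm_mul {F H : Sp ι → Mat n} {y : Sp ι} (hF : DiffM F y) (hH : DiffM H y) (u : Sp ι) :
    Dm n (fun z => F z * H z) y u = Dm n F y u * H y + F y * Dm n H y u := by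
  ext i j
  simp only [Dm, dd, Matrix.of_apply, Matrix.add_apply, Matrix.mul_apply]
  have h : HasFDerivAt (fun z => ∑ k, F z i k * H z k j)
      (∑ k, (F y i k • fderiv ℝ (fun z => H z k j) y + H y k j • fderiv ℝ (fun z => F z i k) y)) y := by
    refine HasFDerivAt.fun_sum (fun k _ => ?_)
    exact ((hF i k).hasFDerivAt).mul ((hH k j).hasFDerivAt)
  rw [h.fderiv]
  simp only [ContinuousLinearMap.sum_apply, ContinuousLinearMap.add_apply,
    ContinuousLinearMap.smul_apply, smul_eq_mul]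
  rw [← Finset.sum_add_distrib]
  refine Finset.sum_congr rfl (fun k _ => ?_)
  ring

theorem DiffM.mul {F H : Sp ι → Mat n} {y : Sp ι} (hF : DiffM F y) (hH : DiffM H y) :
    DiffM (fun z => F z * H z) y := by
  intro i j
  simp only [Matrix.mul_apply]
  exact DifferentiableAt.fun_sum (fun k _ => (hF i k).mul (hH k j))

theorem DiffM.const (C : Mat n) (y : Sp ι) : DiffM (fun _ => C) y :=
  fun _ _ => differentiableAt_const _

theorem DiffM.transpose {F : Sp ι → Mat n} {y : Sp ι} (hF : DiffM F y) :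
    DiffM (fun z => (F z)ᵀ) y := fun i j => hF j i

theorem Dm_const (C : Mat n) (y u : Sp ι) : Dm n (fun _ => C) y u = 0 := by
  ext i j; simp [Dm, dd]

theorem Dm_transpose (F : Sp ι → Mat n) (y u : Sp ι) :
    Dm n (fun z => (F z)ᵀ) y u = (Dm n F y u)ᵀ := rfl

theorem Dm_congr {F H : Sp ι → Mat n} {y : Sp ι} (h : F =ᶠ[𝓝 y] H) (u : Sp ι) :
    Dm n F y u = Dm n H y u := by
  ext i j
  simp only [Dm, dd, Matrix.of_apply]
  have : (fun z => F z i j) =ᶠ[𝓝 y] (fun z => H z i j) := h.mono (fun z hz => by simp only [hz])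
  rw [this.fderiv_eq]

theorem Dm_const_mul (C : Mat n) {F : Sp ι → Mat n} {y : Sp ι} (hF : DiffM F y) (u : Sp ι) :
    Dm n (fun z => C * F z) y u = C * Dm n F y u := by
  rw [Dm_mul (DiffM.const C y) hF, Dm_const, zero_mul, zero_add]

theorem Dm_mul_const (C : Mat n) {F : Sp ι → Mat n} {y : Sp ι} (hF : DiffM F y) (u : Sp ι) :
    Dm n (fun z => F z * C) y u = Dm n F y u * C := by
  rw [Dm_mul hF (DiffM.const C y), Dm_const, mul_zero, add_zero]

/-- Algebra: the trace of `J J_u J_v` for a conjugate of a complex structure. -/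
theorem trace_alg (J A A' Au Av Bu Bv : Mat n) (hJ : J * J = -1) (h1 : A * A' = 1) (h2 : A' * A = 1)
    (hu : Bu * A + A' * Au = 0) (hv : Bv * A + A' * Av = 0) :
    ((A * J * A') * (Au * J * A' + A * J * Bu) * (Av * J * A' + A * J * Bv)).trace =
      -2 * (J * (Bu * Av)).trace + 2 * (J * (Bv * Au)).trace := by
  set X := A' * Au with hX
  set Y := A' * Av with hY
  have eu : Au = A * X := by rw [hX, ← mul_assoc, h1, one_mul]
  have ev : Av = A * Y := by rw [hY, ← mul_assoc, h1, one_mul]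
  have bu : Bu = -(X * A') := by
    have h3 : Bu * A = -X := eq_neg_of_add_eq_zero_left hu
    calc Bu = Bu * A * A' := by rw [mul_assoc, h1, mul_one]
      _ = _ := by rw [h3, neg_mul]
  have bv : Bv = -(Y * A') := by
    have h3 : Bv * A = -Y := eq_neg_of_add_eq_zero_left hv
    calc Bv = Bv * A * A' := by rw [mul_assoc, h1, mul_one]
      _ = _ := by rw [h3, neg_mul]
  have e1 : Au * J * A' + A * J * Bu = A * (X * J - J * X) * A' := by
    rw [eu, bu]; noncomm_ring
  have e2 : Av * J * A' + A * J * Bv = A * (Y * J - J * Y) * A' := by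
    rw [ev, bv]; noncomm_ring
  have e3 : (A * J * A') * (A * (X * J - J * X) * A') * (A * (Y * J - J * Y) * A') =
      A * (J * (X * J - J * X) * (Y * J - J * Y)) * A' := by
    calc _ = A * J * (A' * A) * (X * J - J * X) * (A' * A) * (Y * J - J * Y) * A' := by
          simp only [mul_assoc]
      _ = _ := by rw [h2]; simp only [mul_one, mul_assoc]
  have e4 : J * (X * J - J * X) * (Y * J - J * Y) =
      J * X * J * Y * J + J * X * Y + X * Y * J - X * J * Y := by
    have : J * (X * J - J * X) * (Y * J - J * Y) =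
        J * X * J * Y * J - J * X * (J * J) * Y - (J * J) * X * Y * J + (J * J) * X * J * Y := by
      noncomm_ring
    rw [this, hJ]; noncomm_ring
  have t1 : (J * X * J * Y * J).trace = -(J * (Y * X)).trace := by
    rw [Matrix.trace_mul_comm (J * X * J * Y) J]
    have : J * (J * X * J * Y) = -(X * (J * Y)) := by
      calc J * (J * X * J * Y) = (J * J) * X * (J * Y) := by simp only [mul_assoc]
        _ = _ := by rw [hJ]; noncomm_ring
    rw [this, Matrix.trace_neg, Matrix.trace_mul_comm X (J * Y), mul_assoc]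
  have t2 : (X * Y * J).trace = (J * (X * Y)).trace := Matrix.trace_mul_comm _ _
  have t3 : (X * J * Y).trace = (J * (Y * X)).trace := by
    rw [mul_assoc, Matrix.trace_mul_comm X (J * Y), mul_assoc]
  have e5 : Bu * Av = -(X * Y) := by
    rw [bu, ev]
    calc -(X * A') * (A * Y) = -(X * (A' * A) * Y) := by noncomm_ring
      _ = _ := by rw [h2, mul_one]
  have e6 : Bv * Au = -(Y * X) := by
    rw [bv, eu]
    calc -(Y * A') * (A * X) = -(Y * (A' * A) * X) := by noncomm_ring
      _ = _ := by rw [h2, mul_one]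
  rw [e1, e2, e3, Matrix.trace_mul_comm, ← mul_assoc, h2, one_mul, e4, e5, e6]
  rw [Matrix.trace_sub, Matrix.trace_add, Matrix.trace_add, t1, t2, t3, mul_neg, mul_neg,
    Matrix.trace_neg, Matrix.trace_neg]
  have t4 : (J * X * Y).trace = (J * (X * Y)).trace := by rw [mul_assoc]
  rw [t4]; ring

theorem trace_swap (P Q : Mat n) :
    (J0 n * ((Gm n * Pᵀ * Gm n) * Q)).trace = -(J0 n * ((Gm n * Qᵀ * Gm n) * P)).trace := by
  rw [← Matrix.trace_transpose]
  have h1 : (J0 n * ((Gm n * Pᵀ * Gm n) * Q))ᵀ = -((Qᵀ * Gm n * P * Gm n) * J0 n) := by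
    rw [transpose_mul, transpose_mul, transpose_mul, transpose_mul, transpose_transpose,
      J0_tr, Gm_tr]
    simp only [mul_neg, mul_assoc]
  rw [h1, Matrix.trace_neg]
  congr 1
  rw [show Qᵀ * Gm n * P * Gm n * J0 n = (Qᵀ * Gm n * P) * (Gm n * J0 n) by simp only [mul_assoc],
    Matrix.trace_mul_comm, ← J0_comm]
  simp only [mul_assoc]

/-- The form `tr (J J_u J_v)` for `J = A J₀ A'`, `A' = G Aᵀ G` the inverse of `A`. -/
theorem trace_form {A : Sp ι → Mat n} {y : Sp ι} (hA : DiffM A y)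
    (h1 : ∀ᶠ z in 𝓝 y, Gm n * (A z)ᵀ * Gm n * A z = 1) (u v : Sp ι) :
    ((A y * J0 n * (Gm n * (A y)ᵀ * Gm n)) *
      Dm n (fun z => A z * J0 n * (Gm n * (A z)ᵀ * Gm n)) y u *
      Dm n (fun z => A z * J0 n * (Gm n * (A z)ᵀ * Gm n)) y v).trace =
    -4 * (J0 n * ((Gm n * (Dm n A y u)ᵀ * Gm n) * Dm n A y v)).trace := by
  have hB : DiffM (fun z => Gm n * (A z)ᵀ * Gm n) y :=
    ((DiffM.const _ y).mul hA.transpose).mul (DiffM.const _ y)
  have dB : ∀ u, Dm n (fun z => Gm n * (A z)ᵀ * Gm n) y u = Gm n * (Dm n A y u)ᵀ * Gm n := by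
    intro u
    rw [Dm_mul_const (Gm n) ((DiffM.const _ y).mul hA.transpose), Dm_const_mul _ hA.transpose,
      Dm_transpose]
  have dJ : ∀ u, Dm n (fun z => A z * J0 n * (Gm n * (A z)ᵀ * Gm n)) y u =
      Dm n A y u * J0 n * (Gm n * (A y)ᵀ * Gm n) +
      A y * J0 n * (Gm n * (Dm n A y u)ᵀ * Gm n) := by
    intro u
    rw [Dm_mul (hA.mul (DiffM.const _ y)) hB, dB, Dm_mul_const _ hA]
  have hid : ∀ u, (Gm n * (Dm n A y u)ᵀ * Gm n) * A y +
      (Gm n * (A y)ᵀ * Gm n) * Dm n A y u = 0 := by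
    intro u
    have e1 : Dm n (fun z => Gm n * (A z)ᵀ * Gm n * A z) y u = 0 := by
      rw [Dm_congr (H := fun _ => (1 : Mat n)) h1, Dm_const]
    rw [Dm_mul hB hA, dB] at e1
    exact e1
  have hy : Gm n * (A y)ᵀ * Gm n * A y = 1 := h1.self_of_nhds
  have hy' : A y * (Gm n * (A y)ᵀ * Gm n) = 1 := mul_eq_one_comm.1 hy
  rw [dJ, dJ, trace_alg (J0 n) (A y) (Gm n * (A y)ᵀ * Gm n) _ _ _ _ J0_sq hy' hy (hid u) (hid v),
    trace_swap (Dm n A y v) (Dm n A y u)]
  ring

end Pool.Agent.Helper80.TW
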