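import Pool.Agent.Helper80.TW.Sqrt

/-!
# Smoothness of the entries of the square root
-/

namespace Pool.Agent.Helper80.TW

open Matrix
open scoped Matrix.Norms.L2Operator ContDiff

variable {m : Type*} [Fintype m] [DecidableEq m]

theorem contDiffOn_sq_entry {E : Type*} [NormedAddCommGroup E] [NormedSpace ℝ E] (U : Set E)
    (f : E → Matrix m m ℂ) (hf : ∀ j k, ContDiffOn ℝ ∞ (fun z => f z j k) U)
    (hn : ∀ z ∈ U, ‖f z‖ < 1) (i j : m) : ContDiffOn ℝ ∞ (fun z => sq (f z) i j) U := by
  have h1 : ContDiffOn ℝ ∞ f U := by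
    have h2 : f = fun z => ∑ j, ∑ k, ((ContinuousLinearMap.smulRight (1 : ℂ →L[ℂ] ℂ)
        (Matrix.single j k (1 : ℂ))).restrictScalars ℝ) (f z j k) := by
      funext z
      conv_lhs => rw [Matrix.matrix_eq_sum_single (f z)]
      refine Finset.sum_congr rfl (fun a _ => Finset.sum_congr rfl (fun b _ => ?_))
      simp
    rw [h2]
    refine ContDiffOn.sum (fun a _ => ContDiffOn.sum (fun b _ => ?_))
    exact (ContinuousLinearMap.contDiff _).comp_contDiffOn (hf a b)
  have h3 : ContDiffOn ℝ ∞ (sq : Matrix m m ℂ → Matrix m m ℂ) (Metric.ball 0 1) :=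
    contDiffOn_sq.restrict_scalars ℝ
  have h4 : ContDiffOn ℝ ∞ (fun z => sq (f z)) U :=
    h3.comp h1 (fun z hz => by
      rw [Metric.mem_ball, dist_zero_right]; exact hn z hz)
  let L : Matrix m m ℂ →ₗ[ℂ] ℂ :=
    { toFun := fun A => A i j
      map_add' := fun _ _ => rfl
      map_smul' := fun _ _ => rfl }
  exact (((LinearMap.toContinuousLinearMap L).restrictScalars ℝ).contDiff).comp_contDiffOn h4

end Pool.Agent.Helper80.TW
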