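import Pool.Agent.Helper80.TW.Deriv
import Pool.Agent.Helper80.TW.Smooth

/-!
# The form in the chart `z ↦ J(T(s z))`
-/

namespace Pool.Agent.Helper80.TW

open Matrix Topology Filter
open scoped Matrix.Norms.L2Operator ContDiff

variable {n : ℕ} {ι : Type} [Fintype ι]

/-- The entries are differentiable at `y`. -/
def DiffC (F : Sp ι → Matrix (Fin (n + 1)) (Fin (n + 1)) ℂ) (y : Sp ι) : Prop :=
  ∀ i j, DifferentiableAt ℝ (fun z => F z i j) y

/-- The derivative of a complex matrix valued function. -/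
noncomputable def Dc (F : Sp ι → Matrix (Fin (n + 1)) (Fin (n + 1)) ℂ) (y u : Sp ι) :
    Matrix (Fin (n + 1)) (Fin (n + 1)) ℂ :=
  Matrix.of fun i j => fderiv ℝ (fun z => F z i j) y u

theorem hasFDerivAt_re {f : Sp ι → ℂ} {y : Sp ι} (hf : DifferentiableAt ℝ f y) :
    HasFDerivAt (fun z => (f z).re) (Complex.reCLM.comp (fderiv ℝ f y)) y :=
  (Complex.reCLM.hasFDerivAt).comp y hf.hasFDerivAt

theorem hasFDerivAt_im {f : Sp ι → ℂ} {y : Sp ι} (hf : DifferentiableAt ℝ f y) :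
    HasFDerivAt (fun z => (f z).im) (Complex.imCLM.comp (fderiv ℝ f y)) y :=
  (Complex.imCLM.hasFDerivAt).comp y hf.hasFDerivAt

theorem Dm_Rm {F H : Sp ι → Matrix (Fin (n + 1)) (Fin (n + 1)) ℂ} {y : Sp ι}
    (hF : DiffC F y) (hH : DiffC H y) (u : Sp ι) :
    Dm n (fun z => Rm (F z) (H z)) y u = Rm (Dc F y u) (Dc H y u) := by
  ext (i | i) (j | j)
  · have h := (hasFDerivAt_re (hF i j)).add (hasFDerivAt_re (hH i j))
    have e : fderiv ℝ (fun z => Rm (F z) (H z) (Sum.inl i) (Sum.inl j)) y = _ := h.fderiv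
    simp only [Dm, dd, Matrix.of_apply]
    rw [e]
    simp [Rm, re, Dc]
  · have h := (hasFDerivAt_im (hF i j)).neg.add (hasFDerivAt_im (hH i j))
    have e : fderiv ℝ (fun z => Rm (F z) (H z) (Sum.inl i) (Sum.inr j)) y = _ := h.fderiv
    simp only [Dm, dd, Matrix.of_apply]
    rw [e]
    simp [Rm, im, Dc]
  · have h := (hasFDerivAt_im (hF i j)).add (hasFDerivAt_im (hH i j))
    have e : fderiv ℝ (fun z => Rm (F z) (H z) (Sum.inr i) (Sum.inl j)) y = _ := h.fderiv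
    simp only [Dm, dd, Matrix.of_apply]
    rw [e]
    simp [Rm, im, Dc]
  · have h := (hasFDerivAt_re (hF i j)).sub (hasFDerivAt_re (hH i j))
    have e : fderiv ℝ (fun z => Rm (F z) (H z) (Sum.inr i) (Sum.inr j)) y = _ := h.fderiv
    simp only [Dm, dd, Matrix.of_apply]
    rw [e]
    simp [Rm, re, Dc]

theorem DiffM_Rm {F H : Sp ι → Matrix (Fin (n + 1)) (Fin (n + 1)) ℂ} {y : Sp ι}
    (hF : DiffC F y) (hH : DiffC H y) : DiffM (fun z => Rm (F z) (H z)) y := by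
  rintro (i | i) (j | j)
  · exact ((hasFDerivAt_re (hF i j)).add (hasFDerivAt_re (hH i j))).differentiableAt
  · exact ((hasFDerivAt_im (hF i j)).neg.add (hasFDerivAt_im (hH i j))).differentiableAt
  · exact ((hasFDerivAt_im (hF i j)).add (hasFDerivAt_im (hH i j))).differentiableAt
  · exact ((hasFDerivAt_re (hF i j)).sub (hasFDerivAt_re (hH i j))).differentiableAt

/-- The entries of `T(s z)` as a continuous linear map. -/
noncomputable def TL (s : ℝ) (i j : Fin (n + 1)) : Sp (Prs n) →L[ℝ] ℂ :=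
  LinearMap.toContinuousLinearMap
    { toFun := fun z => Tm (s • z) i j
      map_add' := fun a b => by rw [smul_add, Tm_add]; rfl
      map_smul' := fun a b => by
        rw [smul_comm, Tm_smul, RingHom.id_apply]
        simp }

theorem TL_apply (s : ℝ) (i j : Fin (n + 1)) (z : Sp (Prs n)) : TL s i j z = Tm (s • z) i j := rfl

theorem hasFDerivAt_T (s : ℝ) (i j : Fin (n + 1)) (y : Sp (Prs n)) :
    HasFDerivAt (fun z => Tm (s • z) i j) (TL s i j) y := (TL s i j).hasFDerivAt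

theorem hasFDerivAt_cjT (s : ℝ) (i j : Fin (n + 1)) (y : Sp (Prs n)) :
    HasFDerivAt (fun z => cj (Tm (s • z)) i j)
      ((Complex.conjCLE : ℂ →L[ℝ] ℂ).comp (TL s i j)) y :=
  ((Complex.conjCLE : ℂ →L[ℝ] ℂ).hasFDerivAt).comp y (hasFDerivAt_T s i j y)

theorem Dc_cjT (s : ℝ) (y u : Sp (Prs n)) :
    Dc (fun z => cj (Tm (s • z))) y u = cj (Tm (s • u)) := by
  ext i j
  simp only [Dc, Matrix.of_apply]
  rw [(hasFDerivAt_cjT s i j y).fderiv]
  rfl

theorem Dc_adj {S : Sp ι → Matrix (Fin (n + 1)) (Fin (n + 1)) ℂ} {y : Sp ι}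
    (hS : DiffC S y) (h : ∀ᶠ z in 𝓝 y, DD n * (S z)ᴴ * DD n = S z) (u : Sp ι) :
    DD n * (Dc S y u)ᴴ * DD n = Dc S y u := by
  have key : ∀ (B : Matrix (Fin (n + 1)) (Fin (n + 1)) ℂ) (i j : Fin (n + 1)),
      (DD n * Bᴴ * DD n) i j = (eps n i : ℂ) * (starRingEnd ℂ) (B j i) * (eps n j : ℂ) := by
    intro B i j
    unfold DD
    rw [Matrix.mul_diagonal, Matrix.diagonal_mul]
    simp
  ext i j
  rw [key]
  simp only [Dc, Matrix.of_apply]
  have h1 : HasFDerivAt (fun z => (starRingEnd ℂ) (S z j i))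
      ((Complex.conjCLE : ℂ →L[ℝ] ℂ).comp (fderiv ℝ (fun z => S z j i) y)) y :=
    ((Complex.conjCLE : ℂ →L[ℝ] ℂ).hasFDerivAt).comp y (hS j i).hasFDerivAt
  have h2 : (fun z => S z i j) =ᶠ[𝓝 y]
      fun z => (eps n i : ℂ) * (starRingEnd ℂ) (S z j i) * (eps n j : ℂ) := by
    refine h.mono (fun z hz => ?_)
    simp only
    rw [← key, hz]
  rw [h2.fderiv_eq]
  have h3 := (h1.const_mul (eps n i : ℂ)).mul_const (eps n j : ℂ)
  rw [h3.fderiv]
  simp [mul_comm, mul_left_comm]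

theorem im_trace_adj {P Q : Matrix (Fin (n + 1)) (Fin (n + 1)) ℂ}
    (hP : DD n * Pᴴ * DD n = P) (hQ : DD n * Qᴴ * DD n = Q) : ((P * Q).trace).im = 0 := by
  have h1 : (P * Q).trace = (starRingEnd ℂ) ((P * Q).trace) := by
    calc (P * Q).trace = ((DD n * Pᴴ * DD n) * (DD n * Qᴴ * DD n)).trace := by rw [hP, hQ]
      _ = (DD n * (Pᴴ * (DD n * DD n) * Qᴴ * DD n)).trace := by simp only [mul_assoc]
      _ = ((Pᴴ * (DD n * DD n) * Qᴴ * DD n) * DD n).trace := Matrix.trace_mul_comm _ _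
      _ = (Pᴴ * (DD n * DD n) * Qᴴ * (DD n * DD n)).trace := by simp only [mul_assoc]
      _ = (Pᴴ * Qᴴ).trace := by rw [isSign_DD.sq, mul_one, mul_one]
      _ = (Qᴴ * Pᴴ).trace := Matrix.trace_mul_comm _ _
      _ = ((P * Q)ᴴ).trace := by rw [conjTranspose_mul]
      _ = star ((P * Q).trace) := Matrix.trace_conjTranspose _
      _ = _ := rfl
  exact Complex.conj_eq_iff_im.1 h1.symm

theorem Gm_Rm (B C : Matrix (Fin (n + 1)) (Fin (n + 1)) ℂ) :
    Gm n * (Rm B C)ᵀ * Gm n = Rm (DD n * Bᴴ * DD n) (DD n * Cᵀ * DD n) := by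
  rw [Rm_transpose, Gm_eq, Rm_mul, Rm_mul]
  have hc := isSign_DD (n := n)
  rw [cj_zero, mul_zero, add_zero, zero_mul, add_zero, mul_zero, zero_add, hc.cj, zero_mul,
    add_zero]

theorem trace_J0_Rm (P Q : Matrix (Fin (n + 1)) (Fin (n + 1)) ℂ) :
    (J0 n * Rm P Q).trace = -2 * (P.trace).im := by
  rw [J0_eq, Rm_mul, trace_Rm]
  simp [Matrix.trace_smul]

/-- The entries of `S(T(s z))` are smooth. -/
theorem contDiffOn_SS (s : ℝ) {U : Set (Sp (Prs n))} (hU : ∀ z ∈ U, ‖Tm (s • z)‖ < 1)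
    (i j : Fin (n + 1)) : ContDiffOn ℝ ∞ (fun z => SS (Tm (s • z)) i j) U := by
  refine contDiffOn_sq_entry U (fun z => cj (Tm (s • z)) * Tm (s • z)) (fun j k => ?_)
    (fun z hz => norm_X_lt isSign_DD (Tm_sk _) (hU z hz)) i j
  simp only [Matrix.mul_apply]
  refine ContDiffOn.sum (fun l _ => ContDiffOn.mul ?_ ?_)
  · exact (((Complex.conjCLE : ℂ →L[ℝ] ℂ).comp (TL s j l)).contDiff).contDiffOn
  · exact ((TL s l k).contDiff).contDiffOn

theorem DiffC_SS (s : ℝ) {U : Set (Sp (Prs n))} (hO : IsOpen U) (hU : ∀ z ∈ U, ‖Tm (s • z)‖ < 1)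
    {y : Sp (Prs n)} (hy : y ∈ U) : DiffC (fun z => SS (Tm (s • z))) y := by
  intro i j
  have h := contDiffOn_SS s hU i j
  exact (h.differentiableOn (by simp)).differentiableAt (hO.mem_nhds hy)

/-- The form `tr (J J_u J_v)` in the chart. -/
theorem trace_JT (s : ℝ) {U : Set (Sp (Prs n))} (hO : IsOpen U) (hU : ∀ z ∈ U, ‖Tm (s • z)‖ < 1)
    {y : Sp (Prs n)} (hy : y ∈ U) (u v : Sp (Prs n)) :
    (JT (Tm (s • y)) * Dm n (fun z => JT (Tm (s • z))) y u *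
      Dm n (fun z => JT (Tm (s • z))) y v).trace = 16 * s ^ 2 * om0 u v := by
  have hnhds : ∀ᶠ z in 𝓝 y, z ∈ U := hO.mem_nhds hy
  have hS := DiffC_SS s hO hU hy
  have hT : DiffC (fun z : Sp (Prs n) => cj (Tm (s • z))) y :=
    fun i j => (hasFDerivAt_cjT s i j y).differentiableAt
  have hA : DiffM (fun z : Sp (Prs n) => gM (Tm (s • z))) y := DiffM_Rm hS hT
  have hJ : ∀ z ∈ U, JT (Tm (s • z)) =
      gM (Tm (s • z)) * J0 n * (Gm n * (gM (Tm (s • z)))ᵀ * Gm n) := by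
    intro z hz
    rw [gM_adj (Tm_sk _) (hU z hz)]; rfl
  have hJe : (fun z : Sp (Prs n) => JT (Tm (s • z))) =ᶠ[𝓝 y]
      fun z => gM (Tm (s • z)) * J0 n * (Gm n * (gM (Tm (s • z)))ᵀ * Gm n) :=
    hnhds.mono hJ
  have h1 : ∀ᶠ z in 𝓝 y, Gm n * (gM (Tm (s • z)))ᵀ * Gm n * gM (Tm (s • z)) = 1 :=
    hnhds.mono (fun z hz => by rw [gM_adj (Tm_sk _) (hU z hz), gI_mul_gM (Tm_sk _) (hU z hz)])
  rw [Dm_congr hJe, Dm_congr hJe, hJ y hy]
  rw [trace_form hA h1 u v]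
  have hD : ∀ w, Dm n (fun z : Sp (Prs n) => gM (Tm (s • z))) y w =
      Rm (Dc (fun z => SS (Tm (s • z))) y w) (cj (Tm (s • w))) := by
    intro w
    have := Dm_Rm hS hT w
    rw [Dc_cjT] at this
    exact this
  have hadj : ∀ w, DD n * (Dc (fun z : Sp (Prs n) => SS (Tm (s • z))) y w)ᴴ * DD n =
      Dc (fun z => SS (Tm (s • z))) y w :=
    fun w => Dc_adj hS (hnhds.mono (fun z hz => SS_adj isSign_DD (Tm_sk _) (hU z hz))) w
  rw [hD, hD, Gm_Rm, hadj, transpose_cj, (Tm_sk (s • u)).cj' isSign_DD, Rm_mul, trace_J0_Rm,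
    cj_cj, Matrix.trace_add, neg_mul (cj (Tm (s • u))) (Tm (s • v)), Matrix.trace_neg, Complex.add_im, Complex.neg_im,
    im_trace_adj (hadj u) (hadj v), trace_pairing]
  have h2 : om0 (s • u) (s • v) = s ^ 2 * om0 u v := by
    unfold om0
    rw [Finset.mul_sum]
    refine Finset.sum_congr rfl (fun i _ => ?_)
    simp only [Pi.smul_apply, smul_eq_mul]
    ring
  rw [h2]
  ring

/-- Smoothness of the entries of `J(T(s z))`. -/
theorem contDiffOn_JT (s : ℝ) {U : Set (Sp (Prs n))} (hU : ∀ z ∈ U, ‖Tm (s • z)‖ < 1)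
    (i j : Fin (n + 1) ⊕ Fin (n + 1)) :
    ContDiffOn ℝ ∞ (fun z => JT (Tm (s • z)) i j) U := by
  have hre : ∀ {f : Sp (Prs n) → ℂ}, ContDiffOn ℝ ∞ f U → ContDiffOn ℝ ∞ (fun z => (f z).re) U :=
    fun h => (Complex.reCLM.contDiff).comp_contDiffOn h
  have him : ∀ {f : Sp (Prs n) → ℂ}, ContDiffOn ℝ ∞ f U → ContDiffOn ℝ ∞ (fun z => (f z).im) U :=
    fun h => (Complex.imCLM.contDiff).comp_contDiffOn h
  have hRm : ∀ {F H : Sp (Prs n) → Matrix (Fin (n + 1)) (Fin (n + 1)) ℂ},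
      (∀ i j, ContDiffOn ℝ ∞ (fun z => F z i j) U) → (∀ i j, ContDiffOn ℝ ∞ (fun z => H z i j) U) →
      ∀ i j, ContDiffOn ℝ ∞ (fun z => Rm (F z) (H z) i j) U := by
    intro F H hF hH i j
    rcases i with i | i <;> rcases j with j | j
    · exact (hre (hF i j)).add (hre (hH i j))
    · exact (him (hF i j)).neg.add (him (hH i j))
    · exact (him (hF i j)).add (him (hH i j))
    · exact (hre (hF i j)).sub (hre (hH i j))
  have hS := fun i j => contDiffOn_SS s hU i j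
  have hcT : ∀ i j, ContDiffOn ℝ ∞ (fun z : Sp (Prs n) => cj (Tm (s • z)) i j) U := fun i j =>
    (((Complex.conjCLE : ℂ →L[ℝ] ℂ).comp (TL s i j)).contDiff).contDiffOn
  have hgM : ∀ i j, ContDiffOn ℝ ∞ (fun z : Sp (Prs n) => gM (Tm (s • z)) i j) U := hRm hS hcT
  have hgI : ∀ i j, ContDiffOn ℝ ∞ (fun z : Sp (Prs n) => gI (Tm (s • z)) i j) U :=
    hRm hS (fun i j => (hcT i j).neg)
  have hmul : ∀ {F H : Sp (Prs n) → Mat n}, (∀ i j, ContDiffOn ℝ ∞ (fun z => F z i j) U) →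
      (∀ i j, ContDiffOn ℝ ∞ (fun z => H z i j) U) →
      ∀ i j, ContDiffOn ℝ ∞ (fun z => (F z * H z) i j) U := by
    intro F H hF hH i j
    simp only [Matrix.mul_apply]
    exact ContDiffOn.sum (fun k _ => (hF i k).mul (hH k j))
  have hJ0 : ∀ i j, ContDiffOn ℝ ∞ (fun _ : Sp (Prs n) => (J0 n) i j) U :=
    fun _ _ => contDiffOn_const
  exact hmul (hmul hgM hJ0) hgI i j

end Pool.Agent.Helper80.TW
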