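import Pool.Agent.Helper80.TW.Chart

/-!
# The hyperboloid and its isometries
-/

namespace Pool.Agent.Helper80.TW

open Matrix
open scoped Matrix.Norms.L2Operator

variable {n : ℕ}

/-- The index of a spatial coordinate. -/
def cs (i : Fin n ⊕ Fin n) : Fin (n + 1) ⊕ Fin (n + 1) := Sum.map Fin.castSucc Fin.castSucc i

theorem bil_eq (x y : Fin (n + 1) ⊕ Fin (n + 1) → ℝ) :
    bil n x y = (∑ i : Fin n ⊕ Fin n, x (cs i) * y (cs i)) - x (ie n) * y (ie n) -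
      x (iF n) * y (iF n) := by
  have h1 : bil n x y = ∑ i, x i * (Sum.elim (eps n) (eps n) i * y i) := by
    unfold bil Gm
    simp only [dotProduct, Matrix.mulVec_diagonal]
  have h2 : ∀ i : Fin n, eps n (Fin.castSucc i) = 1 := fun i => by
    unfold eps; rw [if_neg (Fin.castSucc_lt_last i).ne]
  have h3 : eps n (Fin.last n) = -1 := by simp [eps]
  rw [h1, Fintype.sum_sum_type, Fin.sum_univ_castSucc, Fin.sum_univ_castSucc,
    Fintype.sum_sum_type]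
  simp only [Sum.elim_inl, Sum.elim_inr, h2, h3, cs, Sum.map_inl, Sum.map_inr, ie, iF, one_mul]
  ring

theorem bil_comm (x y : Fin (n + 1) ⊕ Fin (n + 1) → ℝ) : bil n x y = bil n y x := by
  rw [bil_eq, bil_eq]
  congr 1
  · congr 1
    · exact Finset.sum_congr rfl (fun i _ => mul_comm _ _)
    · ring
  · ring

/-- Reversed Cauchy–Schwarz. -/
theorem bil_le {x y : Fin (n + 1) ⊕ Fin (n + 1) → ℝ} (hx : x ∈ Hyp n) (hy : y ∈ Hyp n) :
    bil n x y ≤ -1 := by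
  obtain ⟨hx1, hx2, hx3⟩ := hx
  obtain ⟨hy1, hy2, hy3⟩ := hy
  rw [bil_eq, hx1] at hx2
  rw [bil_eq, hy1] at hy2
  rw [bil_eq, hx1]
  have hcs := Finset.sum_mul_sq_le_sq_mul_sq Finset.univ (fun i : Fin n ⊕ Fin n => x (cs i))
    (fun i => y (cs i))
  set a := x (iF n)
  set b := y (iF n)
  set P := ∑ i : Fin n ⊕ Fin n, x (cs i) * y (cs i)
  have hX : ∑ i : Fin n ⊕ Fin n, x (cs i) ^ 2 = a ^ 2 - 1 := by
    have : ∑ i : Fin n ⊕ Fin n, x (cs i) ^ 2 = ∑ i : Fin n ⊕ Fin n, x (cs i) * x (cs i) :=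
      Finset.sum_congr rfl (fun i _ => by ring)
    rw [this]; linarith
  have hY : ∑ i : Fin n ⊕ Fin n, y (cs i) ^ 2 = b ^ 2 - 1 := by
    have : ∑ i : Fin n ⊕ Fin n, y (cs i) ^ 2 = ∑ i : Fin n ⊕ Fin n, y (cs i) * y (cs i) :=
      Finset.sum_congr rfl (fun i _ => by ring)
    rw [this]; linarith
  have ha : 0 ≤ a ^ 2 - 1 := by rw [← hX]; positivity
  have hb : 0 ≤ b ^ 2 - 1 := by rw [← hY]; positivity
  rw [hX, hY] at hcs
  have ha1 : 1 ≤ a := by nlinarith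
  have hb1 : 1 ≤ b := by nlinarith
  have h1 : P ^ 2 ≤ (a * b - 1) ^ 2 := by nlinarith [sq_nonneg (a - b)]
  have h2 : 0 ≤ a * b - 1 := by nlinarith
  have h3 : P ≤ a * b - 1 := by
    exact (abs_le_of_sq_le_sq' h1 h2).2
  linarith

theorem cs_ne_F (i : Fin n ⊕ Fin n) : cs i ≠ iF n := by
  rcases i with i | i
  · simp [cs, iF]
  · simp only [cs, iF, Sum.map_inr, ne_eq, Sum.inr.injEq]
    exact (Fin.castSucc_lt_last i).ne

theorem cs_ne_e (i : Fin n ⊕ Fin n) : cs i ≠ ie n := by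
  rcases i with i | i
  · simp only [cs, ie, Sum.map_inl, ne_eq, Sum.inl.injEq]
    exact (Fin.castSucc_lt_last i).ne
  · simp [cs, ie]

theorem e_ne_F : ie n ≠ iF n := by simp [ie, iF]

theorem bil_single_F (x : Fin (n + 1) ⊕ Fin (n + 1) → ℝ) :
    bil n (Pi.single (iF n) 1) x = - x (iF n) := by
  rw [bil_eq, Finset.sum_eq_zero (fun i _ => by rw [Pi.single_eq_of_ne (cs_ne_F i), zero_mul]),
    Pi.single_eq_of_ne e_ne_F, Pi.single_eq_same]
  ring

theorem bil_single_e (x : Fin (n + 1) ⊕ Fin (n + 1) → ℝ) :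
    bil n (Pi.single (ie n) 1) x = - x (ie n) := by
  rw [bil_eq, Finset.sum_eq_zero (fun i _ => by rw [Pi.single_eq_of_ne (cs_ne_e i), zero_mul]),
    Pi.single_eq_of_ne e_ne_F.symm, Pi.single_eq_same]
  ring

theorem single_F_mem : (Pi.single (iF n) 1 : Fin (n + 1) ⊕ Fin (n + 1) → ℝ) ∈ Hyp n :=
  ⟨by rw [Pi.single_eq_of_ne e_ne_F], by rw [bil_single_F, Pi.single_eq_same],
    by rw [Pi.single_eq_same]; exact one_pos⟩

/-- The form is preserved. -/
theorem bil_mulVec {g : Mat n} (hg : gᵀ * Gm n * g = Gm n)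
    (x y : Fin (n + 1) ⊕ Fin (n + 1) → ℝ) : bil n (g *ᵥ x) (g *ᵥ y) = bil n x y := by
  unfold bil
  rw [← Matrix.vecMul_transpose g x, ← Matrix.dotProduct_mulVec, Matrix.mulVec_mulVec,
    Matrix.mulVec_mulVec, hg]

/-- The inverse of an isometry. -/
def gi (g : Mat n) : Mat n := Gm n * gᵀ * Gm n

theorem gi_mul {g : Mat n} (hg : gᵀ * Gm n * g = Gm n) : gi g * g = 1 := by
  unfold gi
  calc Gm n * gᵀ * Gm n * g = Gm n * (gᵀ * Gm n * g) := by simp only [mul_assoc]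
    _ = _ := by rw [hg, Gm_sq]

theorem mul_gi {g : Mat n} (hg : gᵀ * Gm n * g = Gm n) : g * gi g = 1 :=
  mul_eq_one_comm.1 (gi_mul hg)

theorem gi_orth {g : Mat n} (hg : gᵀ * Gm n * g = Gm n) : (gi g)ᵀ * Gm n * gi g = Gm n := by
  have h1 : (gi g)ᵀ * gᵀ = 1 := by rw [← transpose_mul, mul_gi hg, transpose_one]
  calc (gi g)ᵀ * Gm n * gi g = (gi g)ᵀ * (gᵀ * Gm n * g) * gi g := by rw [hg]
    _ = ((gi g)ᵀ * gᵀ) * Gm n * (g * gi g) := by simp only [mul_assoc]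
    _ = _ := by rw [h1, mul_gi hg, one_mul, mul_one]

theorem gi_e {g : Mat n} (hg : g ∈ Iso n) :
    gi g *ᵥ Pi.single (ie n) 1 = Pi.single (ie n) 1 := by
  calc gi g *ᵥ Pi.single (ie n) 1 = gi g *ᵥ (g *ᵥ Pi.single (ie n) 1) := by rw [hg.2.1]
    _ = _ := by rw [Matrix.mulVec_mulVec, gi_mul hg.1, Matrix.one_mulVec]

/-- Isometries preserve the hyperboloid. -/
theorem Iso_Hyp {g : Mat n} (hg : g ∈ Iso n) {h : Fin (n + 1) ⊕ Fin (n + 1) → ℝ}
    (hh : h ∈ Hyp n) : g *ᵥ h ∈ Hyp n := by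
  have he : (g *ᵥ h) (ie n) = 0 := by
    have h1 : bil n (Pi.single (ie n) 1) (g *ᵥ h) = bil n (Pi.single (ie n) 1) h := by
      conv_lhs => rw [← hg.2.1]
      exact bil_mulVec hg.1 _ _
    rw [bil_single_e, bil_single_e, hh.1] at h1
    linarith
  refine ⟨he, by rw [bil_mulVec hg.1]; exact hh.2.1, ?_⟩
  -- the vector `gi g *ᵥ f`
  set ρ := gi g *ᵥ Pi.single (iF n) 1 with hρ
  have hρF : ρ (iF n) = g (iF n) (iF n) := by
    rw [hρ, Matrix.mulVec_single_one]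
    unfold gi Gm
    rw [Matrix.col_apply, Matrix.mul_diagonal, Matrix.diagonal_mul]
    simp [iF, eps]
  have hρe : ρ (ie n) = 0 := by
    have h1 : bil n (Pi.single (ie n) 1) ρ =
        bil n (Pi.single (ie n) 1) (Pi.single (iF n) 1) := by
      conv_lhs => rw [← gi_e hg]
      exact bil_mulVec (gi_orth hg.1) _ _
    rw [bil_single_e, bil_single_e, Pi.single_eq_of_ne e_ne_F] at h1
    linarith
  have hρm : ρ ∈ Hyp n := by
    refine ⟨hρe, ?_, by rw [hρF]; exact hg.2.2⟩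
    rw [hρ, bil_mulVec (gi_orth hg.1)]
    exact single_F_mem.2.1
  have h2 : bil n ρ h = bil n (Pi.single (iF n) 1) (g *ᵥ h) := by
    rw [← bil_mulVec hg.1 ρ h, hρ, Matrix.mulVec_mulVec, mul_gi hg.1, Matrix.one_mulVec]
  rw [bil_single_F] at h2
  have h3 := bil_le hρm hh
  linarith

/-- The base point of an element of `Z n`. -/
theorem Z_base {J : Mat n} (hJ : J ∈ Z n) : J *ᵥ Pi.single (ie n) 1 ∈ Hyp n := by
  obtain ⟨h1, h2, h3⟩ := hJ
  have h4 : bil n (Pi.single (ie n) 1) (J *ᵥ Pi.single (ie n) 1) = 0 := by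
    have h5 := bil_mulVec h2 (Pi.single (ie n) 1) (J *ᵥ Pi.single (ie n) 1)
    rw [Matrix.mulVec_mulVec, h1, Matrix.neg_mulVec, Matrix.one_mulVec] at h5
    have h6 : bil n (J *ᵥ Pi.single (ie n) 1) (-Pi.single (ie n) 1) =
        -bil n (Pi.single (ie n) 1) (J *ᵥ Pi.single (ie n) 1) := by
      rw [bil_comm (Pi.single (ie n) 1)]
      unfold bil
      rw [Matrix.mulVec_neg, dotProduct_neg]
    rw [h6] at h5
    linarith
  refine ⟨?_, ?_, ?_⟩
  · rw [bil_single_e] at h4; linarith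
  · rw [bil_mulVec h2, bil_single_e, Pi.single_eq_same]
  · rw [Matrix.mulVec_single_one]; exact h3

/-- Conjugation by isometries preserves `Z n`. -/
theorem conj_mem {g J : Mat n} (hg : g ∈ Iso n) (hJ : J ∈ Z n) : g * J * gi g ∈ Z n := by
  have hb : (g * J * gi g) *ᵥ Pi.single (ie n) 1 = g *ᵥ (J *ᵥ Pi.single (ie n) 1) := by
    rw [← Matrix.mulVec_mulVec, gi_e hg, Matrix.mulVec_mulVec]
  refine ⟨?_, ?_, ?_⟩
  · calc g * J * gi g * (g * J * gi g) = g * J * (gi g * g) * J * gi g := by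
          simp only [mul_assoc]
      _ = g * (J * J) * gi g := by rw [gi_mul hg.1, mul_one]; simp only [mul_assoc]
      _ = -1 := by rw [hJ.1, mul_neg, mul_one, neg_mul, mul_gi hg.1]
  · change (g * J * gi g)ᵀ * Gm n * (g * J * gi g) = Gm n
    have e1 : gᵀ * Gm n * g = Gm n := hg.1
    have e2 : Jᵀ * Gm n * J = Gm n := hJ.2.1
    rw [transpose_mul, transpose_mul]
    calc (gi g)ᵀ * (Jᵀ * gᵀ) * Gm n * (g * J * gi g)
        = (gi g)ᵀ * (Jᵀ * (gᵀ * Gm n * g) * J) * gi g := by simp only [mul_assoc]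
      _ = Gm n := by rw [e1, e2, gi_orth hg.1]
  · have h1 := (Iso_Hyp hg (Z_base hJ)).2.2
    rw [← hb, Matrix.mulVec_single_one] at h1
    exact h1

theorem JT_mem {T : Matrix (Fin (n + 1)) (Fin (n + 1)) ℂ} (h : Sk (DD n) T)
    (h1 : ‖T‖ < 1) : JT T ∈ Z n := by
  refine ⟨JT_sq h h1, JT_orth h h1, ?_⟩
  rw [JT_height h h1]
  positivity

end Pool.Agent.Helper80.TW
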