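import Pool.Agent.Helper80.TW.Boost
import Pool.Agent.Helper80.TW.Form

/-!
# The embedded ball
-/

namespace Pool.Agent.Helper80.TW

open Matrix Topology Filter
open scoped Manifold ContDiff Matrix ENNReal Matrix.Norms.L2Operator

variable {n : ℕ}

theorem JT_zero : JT (0 : Matrix (Fin (n + 1)) (Fin (n + 1)) ℂ) = J0 n := by
  have h : Sk (DD n) 0 := by unfold Sk; simp
  rw [JT_eq h (by simp), J0_eq]
  simp

theorem Tm_zero : Tm (0 : Sp (Prs n)) = 0 := by
  have h := Tm_smul (n := n) 0 0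
  rw [zero_smul] at h
  rw [h]; simp

theorem Tm_inj {y z : Sp (Prs n)} (h : Tm y = Tm z) : y = z := by
  have h1 : ∀ p : Prs n, wc y p = wc z p := fun p => by rw [← Tm_lt, ← Tm_lt, h]
  ext i
  rcases i with p | p
  · exact congrArg Complex.re (h1 p)
  · have h2 : eps n p.1.2 * y (Sum.inr p) = eps n p.1.2 * z (Sum.inr p) :=
      congrArg Complex.im (h1 p)
    have h3 := eps_sq p.1.2
    calc y (Sum.inr p) = (eps n p.1.2 * eps n p.1.2) * y (Sum.inr p) := by rw [h3, one_mul]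
      _ = eps n p.1.2 * (eps n p.1.2 * y (Sum.inr p)) := by ring
      _ = eps n p.1.2 * (eps n p.1.2 * z (Sum.inr p)) := by rw [h2]
      _ = (eps n p.1.2 * eps n p.1.2) * z (Sum.inr p) := by ring
      _ = _ := by rw [h3, one_mul]

/-- The chart of `W`. -/
noncomputable def FF (g : Mat n) (s : ℝ) (z : Sp (Prs n)) : Mat n :=
  g * JT (Tm (s • z)) * gi g

theorem FF_smooth (g : Mat n) (s : ℝ) {U : Set (Sp (Prs n))} (hU : ∀ z ∈ U, ‖Tm (s • z)‖ < 1)
    (i j : Fin (n + 1) ⊕ Fin (n + 1)) : ContDiffOn ℝ ∞ (fun z => FF g s z i j) U := by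
  unfold FF
  simp only [Matrix.mul_apply]
  refine ContDiffOn.sum (fun k _ => ContDiffOn.mul (ContDiffOn.sum (fun l _ => ?_))
    contDiffOn_const)
  exact contDiffOn_const.mul (contDiffOn_JT s hU l k)

theorem FF_form {g : Mat n} (hg : gᵀ * Gm n * g = Gm n) (s : ℝ) {U : Set (Sp (Prs n))}
    (hO : IsOpen U) (hU : ∀ z ∈ U, ‖Tm (s • z)‖ < 1) {y : Sp (Prs n)} (hy : y ∈ U)
    (u v : Sp (Prs n)) :
    (FF g s y * Dm n (FF g s) y u * Dm n (FF g s) y v).trace = 16 * s ^ 2 * om0 u v := by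
  have hJ : DiffM (fun z => JT (Tm (s • z))) y := fun i j =>
    ((contDiffOn_JT s hU i j).differentiableOn (by simp)).differentiableAt (hO.mem_nhds hy)
  have hD : ∀ w, Dm n (FF g s) y w = g * Dm n (fun z => JT (Tm (s • z))) y w * gi g := by
    intro w
    unfold FF
    rw [Dm_mul_const (gi g) ((DiffM.const g y).mul hJ), Dm_const_mul g hJ]
  rw [hD, hD, ← trace_JT s hO hU hy u v]
  unfold FF
  set J := JT (Tm (s • y))
  set A := Dm n (fun z => JT (Tm (s • z))) y u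
  set B := Dm n (fun z => JT (Tm (s • z))) y v
  calc (g * J * gi g * (g * A * gi g) * (g * B * gi g)).trace
      = (g * (J * (gi g * g) * A * (gi g * g) * B * gi g)).trace := by simp only [mul_assoc]
    _ = ((J * (gi g * g) * A * (gi g * g) * B * gi g) * g).trace := Matrix.trace_mul_comm _ _
    _ = (J * (gi g * g) * A * (gi g * g) * B * (gi g * g)).trace := by simp only [mul_assoc]
    _ = _ := by rw [gi_mul hg, mul_one, mul_one, mul_one]

theorem FF_base {g : Mat n} (hg : g ∈ Iso n) (s : ℝ) (z : Sp (Prs n)) :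
    FF g s z *ᵥ Pi.single (ie n) 1 = g *ᵥ (JT (Tm (s • z)) *ᵥ Pi.single (ie n) 1) := by
  unfold FF
  rw [← Matrix.mulVec_mulVec, gi_e hg, Matrix.mulVec_mulVec]

theorem FF_inj {g : Mat n} (hg : gᵀ * Gm n * g = Gm n) {s : ℝ} (hs : s ≠ 0) {y z : Sp (Prs n)}
    (hy : ‖Tm (s • y)‖ < 1) (hz : ‖Tm (s • z)‖ < 1) (h : FF g s y = FF g s z) : y = z := by
  have key : ∀ w : Sp (Prs n), gi g * FF g s w * g = JT (Tm (s • w)) := by
    intro w
    unfold FF
    calc gi g * (g * JT (Tm (s • w)) * gi g) * g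
        = (gi g * g) * JT (Tm (s • w)) * (gi g * g) := by simp only [mul_assoc]
      _ = _ := by rw [gi_mul hg, one_mul, mul_one]
  have h1 : JT (Tm (s • y)) = JT (Tm (s • z)) := by rw [← key, ← key, h]
  have h2 := Tm_inj (JT_inj (Tm_sk _) hy (Tm_sk _) hz h1)
  exact smul_right_injective _ hs h2

theorem isOpen_Bll (ι : Type) [Fintype ι] (r : ℝ) : IsOpen (Bll ι r) := by
  unfold Bll
  exact isOpen_lt (by fun_prop) continuous_const

theorem core (hn : 3 ≤ n) {M : Type} [TopologicalSpace M] {S : Symp (Prs n) M}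
    {Γ : Subgroup (Mat n)ˣ} {W : Set (Mat n)} {p : Mat n → M}
    (hQ : IsTwistorQuotient S Γ W p) {g : Mat n} (hg : g ∈ Iso n) (hgW : g * J0 n * gi g ∈ W)
    {r : ℝ} (hr : 0 < r)
    (hinj : ∀ γ ∈ Γ, γ ≠ 1 → ∀ x ∈ Hyp n, hdist n (g *ᵥ Pi.single (iF n) 1) x < r →
      ¬ hdist n (g *ᵥ Pi.single (iF n) 1) ((γ : Mat n) *ᵥ x) < r) :
    ENNReal.ofReal (2 * ((n : ℝ) - 2) * min 1 (Real.sinh (r / 2) ^ 2)) ≤ gromovWidth S := by
  set m : ℝ := min 1 (Real.sinh (r / 2) ^ 2) with hm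
  have hsinh : 0 < Real.sinh (r / 2) := Real.sinh_pos_iff.2 (by linarith)
  have hm0 : 0 < m := lt_min one_pos (by positivity)
  have hm1 : m ≤ 1 := min_le_left _ _
  have hm2 : m ≤ Real.sinh (r / 2) ^ 2 := min_le_right _ _
  have hn' : (3 : ℝ) ≤ n := by exact_mod_cast hn
  set N : ℝ := 2 * ((n : ℝ) - 2) with hN
  have hN0 : 0 < N := by rw [hN]; linarith
  have hπ := Real.pi_pos
  set s : ℝ := Real.sqrt (Real.pi / N) with hs
  set ρ : ℝ := Real.sqrt (N * m / Real.pi) with hρ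
  have hs2 : s ^ 2 = Real.pi / N := Real.sq_sqrt (by positivity)
  have hρ2 : ρ ^ 2 = N * m / Real.pi := Real.sq_sqrt (by positivity)
  have hs0 : 0 < s := Real.sqrt_pos.2 (by positivity)
  have hρ0 : 0 < ρ := Real.sqrt_pos.2 (by positivity)
  have hsρ : s ^ 2 * ρ ^ 2 = m := by rw [hs2, hρ2]; field_simp
  set U : Set (Sp (Prs n)) := Bll (Prs n) ρ with hUdef
  have hO : IsOpen U := isOpen_Bll _ _
  have hsz : ∀ z ∈ U, ∑ i, (s • z) i ^ 2 < m := by
    intro z hz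
    have hz' : ∑ i, z i ^ 2 < ρ ^ 2 := hz
    have h1 : ∑ i, (s • z) i ^ 2 = s ^ 2 * ∑ i, z i ^ 2 := by
      rw [Finset.mul_sum]
      exact Finset.sum_congr rfl (fun i _ => by simp only [Pi.smul_apply, smul_eq_mul]; ring)
    rw [h1, ← hsρ]
    have h2 : 0 < s ^ 2 := by positivity
    nlinarith
  have hU : ∀ z ∈ U, ‖Tm (s • z)‖ < 1 := by
    intro z hz
    have h1 := norm_Tm_le (s • z)
    have h2 := hsz z hz
    have := norm_nonneg (Tm (s • z))
    nlinarith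
  have hstar : ∀ z ∈ U, ∀ t : Set.Icc (0 : ℝ) 1, (t : ℝ) • z ∈ U := by
    intro z hz t
    have hz' : ∑ i, z i ^ 2 < ρ ^ 2 := hz
    show ∑ i, ((t : ℝ) • z) i ^ 2 < ρ ^ 2
    have h1 : ∑ i, ((t : ℝ) • z) i ^ 2 = (t : ℝ) ^ 2 * ∑ i, z i ^ 2 := by
      rw [Finset.mul_sum]
      exact Finset.sum_congr rfl (fun i _ => by simp only [Pi.smul_apply, smul_eq_mul]; ring)
    rw [h1]
    have h2 : (t : ℝ) ^ 2 ≤ 1 := by
      have h3 := t.2.1
      have h4 := t.2.2
      nlinarith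
    have h5 : 0 ≤ ∑ i, z i ^ 2 := by positivity
    nlinarith
  -- the ball is contained in `W`
  have hW : ∀ z ∈ U, FF g s z ∈ W := by
    intro z hz
    have hc : Continuous (fun t : Set.Icc (0 : ℝ) 1 => FF g s ((t : ℝ) • z)) := by
      refine continuous_matrix (fun i j => ?_)
      exact (FF_smooth g s hU i j).continuousOn.comp_continuous (by fun_prop) (hstar z hz)
    have h1 := mem_of_path (X := Set.Icc (0 : ℝ) 1) hQ.acts.clopen hc
      (fun t => conj_mem hg (JT_mem (Tm_sk _) (hU _ (hstar z hz t))))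
      (t₀ := ⟨0, by simp⟩) (by
        unfold FF
        rw [zero_smul, smul_zero, Tm_zero, JT_zero]
        exact hgW) ⟨1, by simp⟩
    simpa using h1
  -- the base points
  have hbase : ∀ z ∈ U, FF g s z *ᵥ Pi.single (ie n) 1 ∈ Hyp n :=
    fun z hz => Z_base (hQ.acts.sub (hW z hz))
  have hdist' : ∀ z ∈ U, hdist n (g *ᵥ Pi.single (iF n) 1) (FF g s z *ᵥ Pi.single (ie n) 1) < r := by
    intro z hz
    have h1 : - bil n (g *ᵥ Pi.single (iF n) 1) (FF g s z *ᵥ Pi.single (ie n) 1) =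
        1 + 2 * ∑ j, ‖Tm (s • z) (Fin.last n) j‖ ^ 2 := by
      rw [FF_base hg, bil_mulVec hg.1, bil_single_F, neg_neg, Matrix.mulVec_single_one,
        Matrix.col_apply, JT_height (Tm_sk _) (hU z hz)]
    have h2 := last_row_le (s • z)
    have h3 := hsz z hz
    have h4 : Real.cosh r = 1 + 2 * Real.sinh (r / 2) ^ 2 := by
      have := Real.cosh_two_mul (r / 2)
      rw [show 2 * (r / 2) = r by ring] at this
      rw [this, Real.cosh_sq]; ring
    unfold hdist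
    rw [h1, ← Real.arcosh_cosh hr.le]
    refine (Real.arcosh_lt_arcosh (by positivity) (Real.cosh_pos r)).2 ?_
    rw [h4]; linarith
  obtain ⟨hcont, hcharts⟩ := hQ.form U hO (FF g s) ⟨FF_smooth g s hU, hW⟩
  refine le_sSup ⟨ρ, hρ0, ⟨fun z => p (FF g s z), hcont, ?_, ?_⟩, ?_⟩
  · intro y hy z hz hyz
    obtain ⟨γ, hγ, h1⟩ := (hQ.fibres _ (hW y hy) _ (hW z hz)).1 hyz
    unfold act at h1
    by_cases hγ1 : γ = 1
    · subst hγ1
      have h2 : FF g s z = FF g s y := by rw [h1]; simp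
      exact FF_inj hg.1 hs0.ne' (hU y hy) (hU z hz) h2.symm
    · exfalso
      refine hinj γ hγ hγ1 _ (hbase y hy) (hdist' y hy) ?_
      have h2 : ((γ⁻¹ : (Mat n)ˣ) : Mat n) *ᵥ Pi.single (ie n) 1 = Pi.single (ie n) 1 :=
        (hQ.acts.iso γ⁻¹ (Γ.inv_mem hγ)).2.1
      have h3 : (γ : Mat n) *ᵥ (FF g s y *ᵥ Pi.single (ie n) 1) =
          FF g s z *ᵥ Pi.single (ie n) 1 := by
        rw [h1, ← Matrix.mulVec_mulVec, h2, Matrix.mulVec_mulVec]
      rw [h3]
      exact hdist' z hz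
  · intro c hc
    obtain ⟨h1, h2⟩ := hcharts c hc
    refine ⟨h1, fun y hy u v => ?_⟩
    rw [h2 y hy u v]
    unfold tform
    rw [FF_form hg.1 s hO hU hy.1, hs2]
    have : (n : ℝ) - 2 ≠ 0 := by linarith
    rw [hN]
    field_simp
    ring
  · rw [hρ2]
    congr 1
    field_simp

end Pool.Agent.Helper80.TW
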