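import Mathlib

/-!
# The operator norm of a skew-symmetric complex matrix
-/

namespace Pool.Agent.Helper80.TW

open Matrix Finset
open scoped Matrix.Norms.L2Operator

variable {m : Type*} [Fintype m] [DecidableEq m]

omit [DecidableEq m] in
theorem lagrange (a b : m → ℂ) :
    ∑ j, ∑ k, ‖a j * b k - a k * b j‖ ^ 2 ≤ 2 * (∑ j, ‖a j‖ ^ 2) * (∑ k, ‖b k‖ ^ 2) := by
  have key : ∀ j k, ‖a j * b k - a k * b j‖ ^ 2 =
      ‖a j‖ ^ 2 * ‖b k‖ ^ 2 + ‖a k‖ ^ 2 * ‖b j‖ ^ 2 -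
      2 * ((a j * (starRingEnd ℂ) (b j)) * (starRingEnd ℂ) (a k * (starRingEnd ℂ) (b k))).re := by
    intro j k
    simp only [← Complex.normSq_eq_norm_sq, Complex.normSq_apply]
    simp
    ring
  simp_rw [key]
  have h1 : ∑ j, ∑ k, ((a j * (starRingEnd ℂ) (b j)) *
      (starRingEnd ℂ) (a k * (starRingEnd ℂ) (b k))).re =
      ‖∑ j, a j * (starRingEnd ℂ) (b j)‖ ^ 2 := by
    rw [← Complex.normSq_eq_norm_sq]
    have : (Complex.normSq (∑ j, a j * (starRingEnd ℂ) (b j)) : ℝ) =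
        ((∑ j, a j * (starRingEnd ℂ) (b j)) *
          (starRingEnd ℂ) (∑ j, a j * (starRingEnd ℂ) (b j))).re := by
      rw [Complex.mul_conj]; simp
    rw [this, map_sum, Finset.sum_mul_sum, Complex.re_sum]
    refine Finset.sum_congr rfl (fun j _ => ?_)
    rw [Complex.re_sum]
  simp only [Finset.sum_sub_distrib, Finset.sum_add_distrib]
  have h2 : ∑ j, ∑ k, ‖a j‖ ^ 2 * ‖b k‖ ^ 2 = (∑ j, ‖a j‖ ^ 2) * (∑ k, ‖b k‖ ^ 2) := by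
    rw [Finset.sum_mul_sum]
  have h3 : ∑ j, ∑ k, ‖a k‖ ^ 2 * ‖b j‖ ^ 2 = (∑ j, ‖a j‖ ^ 2) * (∑ k, ‖b k‖ ^ 2) := by
    rw [Finset.sum_comm, Finset.sum_mul_sum]
  have h4 : ∑ j, ∑ k, 2 * ((a j * (starRingEnd ℂ) (b j)) *
      (starRingEnd ℂ) (a k * (starRingEnd ℂ) (b k))).re =
      2 * ‖∑ j, a j * (starRingEnd ℂ) (b j)‖ ^ 2 := by
    rw [← h1, Finset.mul_sum]
    refine Finset.sum_congr rfl (fun j _ => ?_)
    rw [Finset.mul_sum]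
  rw [h2, h3, h4]
  have : 0 ≤ ‖∑ j, a j * (starRingEnd ℂ) (b j)‖ ^ 2 := by positivity
  linarith

omit [DecidableEq m] in
theorem skew_form (K : Matrix m m ℂ) (hK : Kᵀ = -K) (a b : m → ℂ) :
    ‖∑ j, ∑ k, K j k * (a j * b k)‖ ^ 2 ≤
      ((∑ j, ∑ k, ‖K j k‖ ^ 2) / 2) * ((∑ j, ‖a j‖ ^ 2) * (∑ k, ‖b k‖ ^ 2)) := by
  have hsk : ∀ j k, K k j = - K j k := fun j k => by
    have := congrFun (congrFun hK j) k
    simpa using this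
  have h1 : ∑ j, ∑ k, K j k * (a j * b k) =
      (1 / 2) * ∑ j, ∑ k, K j k * (a j * b k - a k * b j) := by
    have h2 : ∑ j, ∑ k, K j k * (a k * b j) = - ∑ j, ∑ k, K j k * (a j * b k) := by
      rw [Finset.sum_comm, ← Finset.sum_neg_distrib]
      refine Finset.sum_congr rfl (fun j _ => ?_)
      rw [← Finset.sum_neg_distrib]
      refine Finset.sum_congr rfl (fun k _ => ?_)
      rw [hsk j k]; ring
    simp_rw [mul_sub, Finset.sum_sub_distrib]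
    rw [h2]; ring
  rw [h1]
  have h3 : ‖(1 / 2 : ℂ) * ∑ j, ∑ k, K j k * (a j * b k - a k * b j)‖ ≤
      (1 / 2) * ∑ p : m × m, ‖K p.1 p.2‖ * ‖a p.1 * b p.2 - a p.2 * b p.1‖ := by
    rw [norm_mul]
    have : ‖(1 / 2 : ℂ)‖ = 1 / 2 := by norm_num
    rw [this]
    refine mul_le_mul_of_nonneg_left ?_ (by norm_num)
    rw [← Fintype.sum_prod_type' (fun j k => K j k * (a j * b k - a k * b j))]
    refine (norm_sum_le _ _).trans (Finset.sum_le_sum (fun p _ => ?_))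
    rw [norm_mul]
  have h4 := Finset.sum_mul_sq_le_sq_mul_sq (Finset.univ : Finset (m × m))
    (fun p => ‖K p.1 p.2‖) (fun p => ‖a p.1 * b p.2 - a p.2 * b p.1‖)
  have h5 : ∑ p : m × m, ‖K p.1 p.2‖ ^ 2 = ∑ j, ∑ k, ‖K j k‖ ^ 2 :=
    Fintype.sum_prod_type' (fun j k => ‖K j k‖ ^ 2)
  have h6 : ∑ p : m × m, ‖a p.1 * b p.2 - a p.2 * b p.1‖ ^ 2 =
      ∑ j, ∑ k, ‖a j * b k - a k * b j‖ ^ 2 :=
    Fintype.sum_prod_type' (fun j k => ‖a j * b k - a k * b j‖ ^ 2)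
  rw [h5, h6] at h4
  have h7 := lagrange a b
  have hK0 : 0 ≤ ∑ j, ∑ k, ‖K j k‖ ^ 2 := by positivity
  have h8 : ‖(1 / 2 : ℂ) * ∑ j, ∑ k, K j k * (a j * b k - a k * b j)‖ ^ 2 ≤
      ((1 / 2) * ∑ p : m × m, ‖K p.1 p.2‖ * ‖a p.1 * b p.2 - a p.2 * b p.1‖) ^ 2 :=
    pow_le_pow_left₀ (norm_nonneg _) h3 2
  refine h8.trans ?_
  have h9 := mul_le_mul_of_nonneg_left h7 hK0
  generalize (∑ p : m × m, ‖K p.1 p.2‖ * ‖a p.1 * b p.2 - a p.2 * b p.1‖) = s at h4 ⊢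
  generalize (∑ j, ∑ k, ‖a j * b k - a k * b j‖ ^ 2) = LL at h4 h9
  generalize (∑ j, ∑ k, ‖K j k‖ ^ 2) = KK at h4 h9 hK0 ⊢
  generalize (∑ j, ‖a j‖ ^ 2) = AA at h9 ⊢
  generalize (∑ k, ‖b k‖ ^ 2) = BB at h9 ⊢
  have e : ((1 / 2) * s) ^ 2 = (1 / 4) * s ^ 2 := by ring
  have e2 : KK * (2 * AA * BB) = 4 * (KK / 2 * (AA * BB)) := by ring
  rw [e]
  rw [e2] at h9
  linarith

theorem aux_sqrt (a b Q : ℝ) (hb : 0 ≤ b) (hQ : 0 ≤ Q) (h : a ^ 2 ≤ Q * b ^ 2) :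
    a ≤ Real.sqrt Q * b := by
  have h7 : (Real.sqrt Q * b) ^ 2 = Q * b ^ 2 := by
    rw [mul_pow, Real.sq_sqrt hQ]
  exact (abs_le_of_sq_le_sq' (by rw [h7]; exact h) (by positivity)).2

omit [DecidableEq m] in
theorem skew_vec (K : Matrix m m ℂ) (hK : Kᵀ = -K) (v w : m → ℂ)
    (hw : ∀ j, w j = ∑ k, K j k * v k) :
    ∑ j, ‖w j‖ ^ 2 ≤ ((∑ j, ∑ k, ‖K j k‖ ^ 2) / 2) * ∑ k, ‖v k‖ ^ 2 := by
  have h1 : ((∑ j, ‖w j‖ ^ 2 : ℝ) : ℂ) = ∑ j, ∑ k, K j k * ((starRingEnd ℂ) (w j) * v k) := by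
    push_cast
    refine Finset.sum_congr rfl (fun j _ => ?_)
    have h2 : ((‖w j‖ : ℂ)) ^ 2 = (starRingEnd ℂ) (w j) * w j := by
      rw [mul_comm, Complex.mul_conj, Complex.normSq_eq_norm_sq]
      push_cast; rfl
    have h3 : (starRingEnd ℂ) (w j) * w j = (starRingEnd ℂ) (w j) * ∑ k, K j k * v k := by
      rw [← hw j]
    rw [h2, h3, Finset.mul_sum]
    refine Finset.sum_congr rfl (fun k _ => ?_)
    ring
  have h2 := skew_form K hK (fun j => (starRingEnd ℂ) (w j)) (fun k => v k)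
  rw [← h1] at h2
  have hW : 0 ≤ ∑ j, ‖w j‖ ^ 2 := Finset.sum_nonneg fun _ _ => by positivity
  have h3 : ‖((∑ j, ‖w j‖ ^ 2 : ℝ) : ℂ)‖ = ∑ j, ‖w j‖ ^ 2 := by
    rw [Complex.norm_real, Real.norm_eq_abs, abs_of_nonneg hW]
  rw [h3] at h2
  have h4 : ∑ j, ‖(starRingEnd ℂ) (w j)‖ ^ 2 = ∑ j, ‖w j‖ ^ 2 := by simp
  rw [h4] at h2
  have hV : 0 ≤ ∑ k, ‖v k‖ ^ 2 := Finset.sum_nonneg fun _ _ => by positivity
  have hQ : 0 ≤ (∑ j, ∑ k, ‖K j k‖ ^ 2) / 2 := by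
    have : 0 ≤ ∑ j, ∑ k, ‖K j k‖ ^ 2 :=
      Finset.sum_nonneg fun _ _ => Finset.sum_nonneg fun _ _ => by positivity
    linarith
  generalize (∑ j, ∑ k, ‖K j k‖ ^ 2) / 2 = Q at h2 hQ ⊢
  generalize ∑ j, ‖w j‖ ^ 2 = W at h2 hW ⊢
  generalize ∑ k, ‖v k‖ ^ 2 = V at h2 hV ⊢
  by_cases hW0 : W = 0
  · rw [hW0]; positivity
  · have hpos : 0 < W := lt_of_le_of_ne hW (Ne.symm hW0)
    have : W * W ≤ (Q * V) * W := by
      calc W * W = W ^ 2 := by ring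
        _ ≤ Q * (W * V) := h2
        _ = _ := by ring
    exact le_of_mul_le_mul_right this hpos

/-- The operator norm of a skew-symmetric complex matrix. -/
theorem skew_norm_sq_le (K : Matrix m m ℂ) (hK : Kᵀ = -K) :
    ‖K‖ ^ 2 ≤ (∑ j, ∑ k, ‖K j k‖ ^ 2) / 2 := by
  have hQ0 : 0 ≤ (∑ j, ∑ k, ‖K j k‖ ^ 2) / 2 := by
    have : 0 ≤ ∑ j, ∑ k, ‖K j k‖ ^ 2 :=
      Finset.sum_nonneg fun _ _ => Finset.sum_nonneg fun _ _ => by positivity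
    linarith
  have hle : ‖K‖ ≤ Real.sqrt ((∑ j, ∑ k, ‖K j k‖ ^ 2) / 2) := by
    rw [← l2_opNorm_toEuclideanCLM]
    refine ContinuousLinearMap.opNorm_le_bound _ (Real.sqrt_nonneg _) (fun v => ?_)
    refine aux_sqrt _ _ _ (norm_nonneg _) hQ0 ?_
    rw [EuclideanSpace.norm_sq_eq, EuclideanSpace.norm_sq_eq]
    refine skew_vec K hK (fun k => v k) _ (fun j => ?_)
    rw [ofLp_toEuclideanCLM, mulVec, dotProduct]
  calc ‖K‖ ^ 2 ≤ (Real.sqrt ((∑ j, ∑ k, ‖K j k‖ ^ 2) / 2)) ^ 2 :=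
        pow_le_pow_left₀ (norm_nonneg _) hle 2
    _ = _ := Real.sq_sqrt hQ0

end Pool.Agent.Helper80.TW
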