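import Mathlib

/-!
# Real matrices of real-linear maps `z ↦ A z + B z̄` of `ℂ^m`
-/

namespace Pool.Agent.Helper80.TW

open Matrix

variable {m : Type*} [Fintype m] [DecidableEq m]

/-- Entrywise complex conjugate. -/
def cj (A : Matrix m m ℂ) : Matrix m m ℂ := A.map (starRingEnd ℂ)

/-- Real parts of the entries. -/
def re (A : Matrix m m ℂ) : Matrix m m ℝ := A.map Complex.re

/-- Imaginary parts of the entries. -/
def im (A : Matrix m m ℂ) : Matrix m m ℝ := A.map Complex.im

omit [Fintype m] [DecidableEq m] in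
@[simp] theorem cj_cj (A : Matrix m m ℂ) : cj (cj A) = A := by
  ext i j; simp [cj]

omit [DecidableEq m] in
theorem cj_mul (A B : Matrix m m ℂ) : cj (A * B) = cj A * cj B := by
  simp [cj, Matrix.map_mul]

omit [Fintype m] [DecidableEq m] in
theorem cj_add (A B : Matrix m m ℂ) : cj (A + B) = cj A + cj B := by
  ext i j; simp [cj]

omit [Fintype m] [DecidableEq m] in
theorem cj_sub (A B : Matrix m m ℂ) : cj (A - B) = cj A - cj B := by
  ext i j; simp [cj]

omit [Fintype m] [DecidableEq m] in
theorem cj_neg (A : Matrix m m ℂ) : cj (-A) = - cj A := by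
  ext i j; simp [cj]

omit [Fintype m] [DecidableEq m] in
@[simp] theorem cj_zero : cj (0 : Matrix m m ℂ) = 0 := by
  ext i j; simp [cj]

omit [Fintype m] in
@[simp] theorem cj_one : cj (1 : Matrix m m ℂ) = 1 := by
  ext i j; simp [cj, Matrix.one_apply, apply_ite (starRingEnd ℂ)]

omit [Fintype m] [DecidableEq m] in
theorem cj_transpose (A : Matrix m m ℂ) : cj Aᵀ = Aᴴ := by
  ext i j; simp [cj]

omit [Fintype m] [DecidableEq m] in
theorem cj_conjTranspose (A : Matrix m m ℂ) : cj Aᴴ = Aᵀ := by
  ext i j; simp [cj]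

omit [Fintype m] [DecidableEq m] in
theorem transpose_cj (A : Matrix m m ℂ) : (cj A)ᵀ = Aᴴ := by
  ext i j; simp [cj]

omit [Fintype m] [DecidableEq m] in
theorem conjTranspose_cj (A : Matrix m m ℂ) : (cj A)ᴴ = Aᵀ := by
  ext i j; simp [cj]

omit [Fintype m] [DecidableEq m] in
theorem re_add (A B : Matrix m m ℂ) : re (A + B) = re A + re B := by
  ext i j; simp [re]

omit [Fintype m] [DecidableEq m] in
theorem im_add (A B : Matrix m m ℂ) : im (A + B) = im A + im B := by
  ext i j; simp [im]

omit [Fintype m] [DecidableEq m] in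
theorem re_cj (A : Matrix m m ℂ) : re (cj A) = re A := by
  ext i j; simp [re, cj]

omit [Fintype m] [DecidableEq m] in
theorem im_cj (A : Matrix m m ℂ) : im (cj A) = - im A := by
  ext i j; simp [im, cj]

omit [DecidableEq m] in
theorem re_mul (A B : Matrix m m ℂ) : re (A * B) = re A * re B - im A * im B := by
  ext i j
  simp [re, im, Matrix.mul_apply, Complex.re_sum, Finset.sum_sub_distrib]

omit [DecidableEq m] in
theorem im_mul (A B : Matrix m m ℂ) : im (A * B) = re A * im B + im A * re B := by
  ext i j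
  simp [re, im, Matrix.mul_apply, Complex.im_sum, Finset.sum_add_distrib]

/-- The real matrix of `z ↦ A z + B z̄` in the coordinates (real parts, imaginary parts). -/
def Rm (A B : Matrix m m ℂ) : Matrix (m ⊕ m) (m ⊕ m) ℝ :=
  fromBlocks (re A + re B) (-im A + im B) (im A + im B) (re A - re B)

omit [DecidableEq m] in
theorem Rm_mul (A B A' B' : Matrix m m ℂ) :
    Rm A B * Rm A' B' = Rm (A * A' + B * cj B') (A * B' + B * cj A') := by
  unfold Rm
  rw [fromBlocks_multiply]
  congr 1 <;> simp only [re_add, im_add, re_mul, im_mul, re_cj, im_cj] <;> noncomm_ring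

omit [Fintype m] [DecidableEq m] in
theorem Rm_transpose (A B : Matrix m m ℂ) : (Rm A B)ᵀ = Rm Aᴴ Bᵀ := by
  unfold Rm
  rw [fromBlocks_transpose]
  congr 1 <;> ext i j <;> simp [re, im]

omit [Fintype m] in
theorem Rm_one : Rm (1 : Matrix m m ℂ) 0 = 1 := by
  unfold Rm
  rw [← fromBlocks_one]
  congr 1 <;> ext i j <;> simp [re, im, Matrix.one_apply] <;> split_ifs <;> simp

omit [DecidableEq m] in
theorem trace_Rm (A B : Matrix m m ℂ) : (Rm A B).trace = 2 * (A.trace).re := by
  unfold Rm
  simp [re, Matrix.trace, Complex.re_sum, Fintype.sum_sum_type, Finset.sum_add_distrib,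
    Finset.sum_sub_distrib]
  ring

omit [Fintype m] [DecidableEq m] in
theorem Rm_inj {A B A' B' : Matrix m m ℂ} (h : Rm A B = Rm A' B') : A = A' ∧ B = B' := by
  unfold Rm at h
  rw [fromBlocks_inj] at h
  obtain ⟨h1, h2, h3, h4⟩ := h
  have e1 : ∀ i j, (A i j).re + (B i j).re = (A' i j).re + (B' i j).re := fun i j => by
    simpa [re] using congrFun (congrFun h1 i) j
  have e2 : ∀ i j, -(A i j).im + (B i j).im = -(A' i j).im + (B' i j).im := fun i j => by
    simpa [im] using congrFun (congrFun h2 i) j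
  have e3 : ∀ i j, (A i j).im + (B i j).im = (A' i j).im + (B' i j).im := fun i j => by
    simpa [im] using congrFun (congrFun h3 i) j
  have e4 : ∀ i j, (A i j).re - (B i j).re = (A' i j).re - (B' i j).re := fun i j => by
    simpa [re] using congrFun (congrFun h4 i) j
  constructor
  · ext i j
    apply Complex.ext
    · linarith [e1 i j, e4 i j]
    · linarith [e2 i j, e3 i j]
  · ext i j
    apply Complex.ext
    · linarith [e1 i j, e4 i j]
    · linarith [e2 i j, e3 i j]

omit [Fintype m] [DecidableEq m] in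
theorem Rm_add (A B A' B' : Matrix m m ℂ) : Rm A B + Rm A' B' = Rm (A + A') (B + B') := by
  unfold Rm
  rw [fromBlocks_add]
  congr 1 <;> ext i j <;> simp [re, im] <;> ring

omit [Fintype m] [DecidableEq m] in
theorem Rm_neg (A B : Matrix m m ℂ) : - Rm A B = Rm (-A) (-B) := by
  unfold Rm
  rw [fromBlocks_neg]
  congr 1 <;> ext i j <;> simp [re, im] <;> ring

end Pool.Agent.Helper80.TW
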