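import Pool.Agent.Helper80.TW.Binom
import Pool.Agent.Helper80.TW.Real
import Pool.Agent.Helper80.TW.Norm

/-!
# The square root `S = (1 + T̄ T)^(1/2)` for a matrix `T` which is skew for `D = diag(1, …, 1, -1)`
-/

namespace Pool.Agent.Helper80.TW

open Matrix
open scoped Matrix.Norms.L2Operator

variable {m : Type*} [Fintype m] [DecidableEq m]

/-- The hypotheses on the diagonal sign matrix. -/
structure IsSign (D : Matrix m m ℂ) : Prop where
  sq : D * D = 1
  tr : Dᵀ = D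
  cj : cj D = D
  norm : ‖D‖ ≤ 1

theorem IsSign.herm {D : Matrix m m ℂ} (h : IsSign D) : Dᴴ = D := by
  rw [← cj_transpose, h.tr, h.cj]

/-- `T` is skew for `D`. -/
def Sk (D T : Matrix m m ℂ) : Prop := D * Tᵀ * D = -T

variable {D T : Matrix m m ℂ}

theorem Sk.cj' (hD : IsSign D) (h : Sk D T) : D * Tᴴ * D = - cj T := by
  have h1 := congrArg cj h
  rw [cj_mul, cj_mul, hD.cj, cj_transpose, cj_neg] at h1
  exact h1

theorem Sk.conj (hD : IsSign D) (h : Sk D T) : Sk D (cj T) := by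
  unfold Sk
  rw [transpose_cj]
  exact h.cj' hD

theorem norm_cj_le (hD : IsSign D) (h : Sk D T) : ‖cj T‖ ≤ ‖T‖ := by
  have h1 : cj T = -(D * Tᴴ * D) := by rw [h.cj' hD, neg_neg]
  rw [h1, norm_neg]
  calc ‖D * Tᴴ * D‖ ≤ ‖D * Tᴴ‖ * ‖D‖ := norm_mul_le _ _
    _ ≤ (‖D‖ * ‖Tᴴ‖) * ‖D‖ := by gcongr; exact norm_mul_le _ _
    _ ≤ (1 * ‖Tᴴ‖) * 1 := by
        gcongr
        · exact hD.norm
        · exact hD.norm
    _ = ‖T‖ := by rw [l2_opNorm_conjTranspose]; ring

theorem norm_T_sq_le (hD : IsSign D) (h : Sk D T) :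
    ‖T‖ ^ 2 ≤ (∑ j, ∑ k, ‖(D * T) j k‖ ^ 2) / 2 := by
  have hK : (D * T)ᵀ = -(D * T) := by
    have h1 : D * (D * Tᵀ * D) = D * -T := by rw [h]
    rw [← mul_assoc, ← mul_assoc, hD.sq, one_mul] at h1
    rw [transpose_mul, hD.tr, h1, mul_neg]
  have h2 := skew_norm_sq_le (D * T) hK
  refine le_trans ?_ h2
  have h3 : T = D * (D * T) := by rw [← mul_assoc, hD.sq, one_mul]
  have h4 : ‖T‖ ≤ ‖D * T‖ := by
    calc ‖T‖ = ‖D * (D * T)‖ := by rw [← h3]
      _ ≤ ‖D‖ * ‖D * T‖ := norm_mul_le _ _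
      _ ≤ 1 * ‖D * T‖ := by gcongr; exact hD.norm
      _ = _ := one_mul _
  gcongr

theorem norm_X_lt (hD : IsSign D) (h : Sk D T) (h1 : ‖T‖ < 1) : ‖cj T * T‖ < 1 := by
  have h0 := norm_nonneg T
  calc ‖cj T * T‖ ≤ ‖cj T‖ * ‖T‖ := norm_mul_le _ _
    _ ≤ ‖T‖ * ‖T‖ := by gcongr; exact norm_cj_le hD h
    _ < 1 := by nlinarith

theorem norm_Y_lt (hD : IsSign D) (h : Sk D T) (h1 : ‖T‖ < 1) : ‖T * cj T‖ < 1 := by
  have h0 := norm_nonneg T
  calc ‖T * cj T‖ ≤ ‖T‖ * ‖cj T‖ := norm_mul_le _ _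
    _ ≤ ‖T‖ * ‖T‖ := by gcongr; exact norm_cj_le hD h
    _ < 1 := by nlinarith

/-- `S = (1 + T̄ T)^(1/2)`. -/
noncomputable def SS (T : Matrix m m ℂ) : Matrix m m ℂ := sq (cj T * T)

theorem SS_mul_self (hD : IsSign D) (h : Sk D T) (h1 : ‖T‖ < 1) :
    SS T * SS T = 1 + cj T * T := sq_mul_self (norm_X_lt hD h h1)

omit [Fintype m] [DecidableEq m] in
theorem cj_smul_real (r : ℝ) (A : Matrix m m ℂ) : cj ((r : ℂ) • A) = (r : ℂ) • cj A := by
  ext i j; simp [cj]

theorem cj_pow (A : Matrix m m ℂ) (k : ℕ) : cj (A ^ k) = cj A ^ k := by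
  induction k with
  | zero => simp
  | succ k ih => rw [pow_succ, cj_mul, ih, pow_succ]

theorem cj_SS (hD : IsSign D) (h : Sk D T) (h1 : ‖T‖ < 1) : cj (SS T) = sq (T * cj T) := by
  let Φ : Matrix m m ℂ →+ Matrix m m ℂ :=
    { toFun := cj
      map_zero' := cj_zero
      map_add' := cj_add }
  have hc : Continuous Φ := by
    change Continuous (fun A : Matrix m m ℂ => A.map (starRingEnd ℂ))
    exact continuous_id.matrix_map Complex.continuous_conj
  refine map_sq Φ hc (norm_X_lt hD h h1) (fun k r => ?_)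
  change cj ((r : ℂ) • (cj T * T) ^ k) = (r : ℂ) • (T * cj T) ^ k
  rw [cj_smul_real, cj_pow, cj_mul, cj_cj]

theorem T_mul_SS (hD : IsSign D) (h : Sk D T) (h1 : ‖T‖ < 1) : T * SS T = cj (SS T) * T := by
  rw [cj_SS hD h h1]
  exact mul_sq_comm (norm_X_lt hD h h1) (norm_Y_lt hD h h1)

theorem cjT_mul_cjSS (hD : IsSign D) (h : Sk D T) (h1 : ‖T‖ < 1) :
    cj T * cj (SS T) = SS T * cj T := by
  have h2 := congrArg cj (T_mul_SS hD h h1)
  rw [cj_mul, cj_mul, cj_cj] at h2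
  exact h2

theorem SS_adj (hD : IsSign D) (h : Sk D T) (h1 : ‖T‖ < 1) : D * (SS T)ᴴ * D = SS T := by
  let Φ : Matrix m m ℂ →+ Matrix m m ℂ :=
    { toFun := fun A => D * Aᴴ * D
      map_zero' := by simp
      map_add' := fun A B => by
        rw [conjTranspose_add, mul_add, add_mul] }
  have hc : Continuous Φ := by
    change Continuous (fun A : Matrix m m ℂ => D * Aᴴ * D)
    exact (continuous_const.matrix_mul (continuous_id.matrix_conjTranspose)).matrix_mul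
      continuous_const
  have hX : D * (cj T * T)ᴴ * D = cj T * T := by
    have e1 : D * (cj T * T)ᴴ * D = (D * Tᴴ * D) * (D * Tᵀ * D) := by
      rw [conjTranspose_mul, conjTranspose_cj]
      calc D * (Tᴴ * Tᵀ) * D = D * Tᴴ * 1 * Tᵀ * D := by rw [mul_one]; simp only [mul_assoc]
        _ = D * Tᴴ * (D * D) * Tᵀ * D := by rw [hD.sq]
        _ = _ := by simp only [mul_assoc]
    rw [e1, h.cj' hD, h, neg_mul_neg]
  refine map_sq Φ hc (norm_X_lt hD h h1) (fun k r => ?_)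
  change D * ((r : ℂ) • (cj T * T) ^ k)ᴴ * D = (r : ℂ) • (cj T * T) ^ k
  have hpow : ∀ (A : Matrix m m ℂ), D * A * D = cj T * T → D * A ^ k * D = (cj T * T) ^ k := by
    intro A hA
    induction k with
    | zero => rw [pow_zero, pow_zero, mul_one, hD.sq]
    | succ k ih =>
      calc D * A ^ (k + 1) * D = D * A ^ k * 1 * A * D := by
            rw [mul_one, pow_succ]; simp only [mul_assoc]
        _ = D * A ^ k * (D * D) * A * D := by rw [hD.sq]
        _ = (D * A ^ k * D) * (D * A * D) := by simp only [mul_assoc]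
        _ = _ := by rw [ih, hA, pow_succ]
  rw [conjTranspose_smul, conjTranspose_pow]
  have hr : star (r : ℂ) = (r : ℂ) := Complex.conj_ofReal r
  rw [hr, mul_smul_comm, smul_mul_assoc, hpow _ hX]

theorem SS_isUnit (hD : IsSign D) (h : Sk D T) (h1 : ‖T‖ < 1) : IsUnit (SS T) := by
  have h2 : IsUnit (1 + cj T * T) := by
    have h3 := isUnit_one_sub_of_norm_lt_one (x := -(cj T * T))
      (by rw [norm_neg]; exact norm_X_lt hD h h1)
    rwa [sub_neg_eq_add] at h3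
  rw [← SS_mul_self hD h h1] at h2
  exact isUnit_of_mul_isUnit_left h2

end Pool.Agent.Helper80.TW
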